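import Pool.Agent.Lib.MP_417c68_gt_D.Csq

/-!
# MP_417c68_gt, project P, module I/AdInv: Lie triples of symmetric matrices

`Trp V`: `V ≤ Alg N` is a Lie triple of symmetric elements.  `gV V = V + [V, V]`.

PROOFS.
* `br_gV`: `[V, V] ≤ span`, `[X, [Y, Z]] = -[[Y, Z], X] ∈ V`.
* `gV_sym`: an element of `gV V` is `X + A` with `X ∈ V` symmetric and `A` skew; if it is symmetric
  then
  `A = 0`; if it is skew then `X = 0`.
* `cA_gV`: `exp X A exp (-X) = lim of sums of iterated brackets`; or: `t ↦ cA (eu (t • X)) A` solves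
  `c' = [X, c]`; or: the subspace `gV V` is closed and stable under `ad X`, and
  `cA (eu X) = exp (ad X)` (left and right multiplication commute).
* `ad_of_Ad`.  `Z i = u i * diagonal (l i) * (u i)⁻¹` (`Spec.lean`, spectral theorem).  In the
  basis given by
  `u` the map `A ↦ cA (eu Z) A` multiplies the `(p, q)` entry of the block `i` by `exp (l i p - l i
  q)` and
  `br Z` multiplies it by `l i p - l i q`.  Let `p(t)` be the Lagrange interpolation polynomial with
  `p (exp (l i p - l i q)) = l i p - l i q` for all `i, p, q`.  Then `br Z A = p(cA (eu Z)) A ∈ g`.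
-/

noncomputable section

namespace Pool.Agent.MP_417c68_gt

open Matrix NormedSpace

variable {n : ℕ} {N : Fin n → ℕ}

/-- the commutator -/
def br (X Y : Alg N) : Alg N := X * Y - Y * X

/-- `V` is a Lie triple of symmetric elements -/
structure Trp (V : Submodule ℝ (Alg N)) : Prop where
  sym : ∀ X ∈ V, ∀ i, (X i)ᵀ = X i
  tri : ∀ X ∈ V, ∀ Y ∈ V, ∀ Z ∈ V, br (br X Y) Z ∈ V

/-- the span of all `[X, Y]`, `X, Y ∈ V` -/
def kV (V : Submodule ℝ (Alg N)) : Submodule ℝ (Alg N) :=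
  Submodule.span ℝ {A | ∃ X ∈ V, ∃ Y ∈ V, A = br X Y}

/-- the Lie algebra `V + [V, V]` -/
def gV (V : Submodule ℝ (Alg N)) : Submodule ℝ (Alg N) := V ⊔ kV V

variable {V : Submodule ℝ (Alg N)}

private theorem AdInv_br_add (X Y Z : Alg N) : br X (Y + Z) = br X Y + br X Z := by
  unfold br
  noncomm_ring

private theorem AdInv_add_br (X Y Z : Alg N) : br (X + Y) Z = br X Z + br Y Z := by
  unfold br
  noncomm_ring

private theorem AdInv_smul_br (c : ℝ) (X Y : Alg N) : br (c • X) Y = c • br X Y := by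
  unfold br
  rw [smul_mul_assoc, mul_smul_comm, smul_sub]

private theorem AdInv_br_neg (X Y : Alg N) : br X Y = -br Y X := by
  unfold br
  rw [neg_sub]

private theorem AdInv_kV_br (hV : Trp V) {A X : Alg N} (hA : A ∈ kV V) (hX : X ∈ V) :
    br A X ∈ V := by
  refine Submodule.span_induction (p := fun A _ => br A X ∈ V) ?_ ?_ ?_ ?_ hA
  · rintro _ ⟨Y, hY, Z, hZ, rfl⟩
    exact hV.tri Y hY Z hZ X hX
  · have h1 : br 0 X = 0 := by
      unfold br
      rw [zero_mul, mul_zero, sub_zero]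
    rw [h1]
    exact V.zero_mem
  · intro Y Z _ _ hY hZ
    rw [AdInv_add_br]
    exact V.add_mem hY hZ
  · intro c Y _ hY
    rw [AdInv_smul_br]
    exact V.smul_mem c hY

theorem br_gV (hV : Trp V) {X A : Alg N} (hX : X ∈ V) (hA : A ∈ gV V) : br X A ∈ gV V := by
  obtain ⟨Y, hY, B, hB, rfl⟩ := Submodule.mem_sup.1 hA
  rw [AdInv_br_add, add_comm]
  refine Submodule.add_mem_sup ?_ (Submodule.subset_span ⟨X, hX, Y, hY, rfl⟩)
  rw [AdInv_br_neg]
  exact V.neg_mem (AdInv_kV_br hV hB hX)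

theorem kV_br (hV : Trp V) {A X : Alg N} (hA : A ∈ kV V) (hX : X ∈ V) : br A X ∈ V := by
  exact AdInv_kV_br hV hA hX

theorem kV_skew (hV : Trp V) {A : Alg N} (hA : A ∈ kV V) (i : Fin n) : (A i)ᵀ = -(A i) := by
  refine Submodule.span_induction (p := fun A _ => (A i)ᵀ = -(A i)) ?_ ?_ ?_ ?_ hA
  · rintro _ ⟨Y, hY, Z, hZ, rfl⟩
    show (Y i * Z i - Z i * Y i)ᵀ = -(Y i * Z i - Z i * Y i)
    rw [Matrix.transpose_sub, Matrix.transpose_mul, Matrix.transpose_mul, hV.sym Y hY i,
      hV.sym Z hZ i, neg_sub]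
  · show (0 : Matrix (Fin (N i)) (Fin (N i)) ℝ)ᵀ = -0
    rw [Matrix.transpose_zero, neg_zero]
  · intro Y Z _ _ hY hZ
    show (Y i + Z i)ᵀ = -(Y i + Z i)
    rw [Matrix.transpose_add, hY, hZ, neg_add]
  · intro c Y _ hY
    show (c • Y i)ᵀ = -(c • Y i)
    rw [Matrix.transpose_smul, hY, smul_neg]

private theorem AdInv_zero {m : ℕ} {B : Matrix (Fin m) (Fin m) ℝ} (h1 : Bᵀ = B)
    (h2 : Bᵀ = -B) : B = 0 := by
  rw [h1] at h2
  ext p q
  have h3 : B p q = -B p q := congrFun (congrFun h2 p) q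
  show B p q = 0
  linarith

theorem gV_sym (hV : Trp V) {A : Alg N} (hA : A ∈ gV V) (hs : ∀ i, (A i)ᵀ = A i) : A ∈ V := by
  obtain ⟨Y, hY, B, hB, rfl⟩ := Submodule.mem_sup.1 hA
  have h0 : B = 0 := by
    funext i
    refine AdInv_zero ?_ (kV_skew hV hB i)
    have h1 : (Y i + B i)ᵀ = Y i + B i := hs i
    rw [Matrix.transpose_add, hV.sym Y hY i] at h1
    exact add_left_cancel h1
  rw [h0, add_zero]
  exact hY

theorem gV_skew (hV : Trp V) {A : Alg N} (hA : A ∈ gV V) (hs : ∀ i, (A i)ᵀ = -(A i)) :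
    A ∈ kV V := by
  obtain ⟨Y, hY, B, hB, rfl⟩ := Submodule.mem_sup.1 hA
  have h0 : Y = 0 := by
    funext i
    refine AdInv_zero (hV.sym Y hY i) ?_
    have h1 : (Y i + B i)ᵀ = -(Y i + B i) := hs i
    rw [Matrix.transpose_add, kV_skew hV hB i, neg_add] at h1
    exact add_right_cancel h1
  rw [h0, zero_add]
  exact hB

/-! ### Hadamard products in an eigenbasis -/

/-- the operator which multiplies the entries in the basis given by `u` by `d` -/
private def AdInv_H (u : ∀ i, (Matrix (Fin (N i)) (Fin (N i)) ℝ)ˣ)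
    (d : ∀ i, Fin (N i) → Fin (N i) → ℝ) : Module.End ℝ (Alg N) where
  toFun A := fun i => (u i).1 * Matrix.of (fun p q => d i p q * (((u i)⁻¹).1 * A i * (u i).1) p q) *
    ((u i)⁻¹).1
  map_add' A B := by
    funext i
    have h1 : Matrix.of (fun p q => d i p q * (((u i)⁻¹).1 * (A + B) i * (u i).1) p q) =
        Matrix.of (fun p q => d i p q * (((u i)⁻¹).1 * A i * (u i).1) p q) +
        Matrix.of (fun p q => d i p q * (((u i)⁻¹).1 * B i * (u i).1) p q) := by
      ext p q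
      rw [Pi.add_apply, Matrix.mul_add, Matrix.add_mul]
      exact mul_add _ _ _
    refine (congrArg (fun M => (u i).1 * M * ((u i)⁻¹).1) h1).trans ?_
    rw [Matrix.mul_add, Matrix.add_mul]
    rfl
  map_smul' c A := by
    funext i
    have h1 : Matrix.of (fun p q => d i p q * (((u i)⁻¹).1 * (c • A) i * (u i).1) p q) =
        c • Matrix.of (fun p q => d i p q * (((u i)⁻¹).1 * A i * (u i).1) p q) := by
      ext p q
      rw [Pi.smul_apply, Matrix.mul_smul, Matrix.smul_mul]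
      exact mul_left_comm _ _ _
    refine (congrArg (fun M => (u i).1 * M * ((u i)⁻¹).1) h1).trans ?_
    rw [Matrix.mul_smul, Matrix.smul_mul]
    rfl

private theorem AdInv_H_apply (u : ∀ i, (Matrix (Fin (N i)) (Fin (N i)) ℝ)ˣ)
    (d : ∀ i, Fin (N i) → Fin (N i) → ℝ) (A : Alg N) (i : Fin n) : AdInv_H u d A i =
      (u i).1 * Matrix.of (fun p q => d i p q * (((u i)⁻¹).1 * A i * (u i).1) p q) *
        ((u i)⁻¹).1 := rfl

private theorem AdInv_H_mul (u : ∀ i, (Matrix (Fin (N i)) (Fin (N i)) ℝ)ˣ)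
    (d d' : ∀ i, Fin (N i) → Fin (N i) → ℝ) :
    AdInv_H u d * AdInv_H u d' = AdInv_H u (fun i p q => d i p q * d' i p q) := by
  refine LinearMap.ext fun A => funext fun i => ?_
  rw [Module.End.mul_apply, AdInv_H_apply, AdInv_H_apply, AdInv_H_apply]
  have h1 : ((u i)⁻¹).1 * (u i).1 = 1 := (u i).inv_mul
  have h2 : ((u i)⁻¹).1 * ((u i).1 * Matrix.of (fun p q => d' i p q *
      (((u i)⁻¹).1 * A i * (u i).1) p q) * ((u i)⁻¹).1) * (u i).1 =
      Matrix.of (fun p q => d' i p q * (((u i)⁻¹).1 * A i * (u i).1) p q) := by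
    rw [← Matrix.mul_assoc, ← Matrix.mul_assoc, h1, Matrix.one_mul, Matrix.mul_assoc _ _ (u i).1,
      h1, Matrix.mul_one]
  rw [h2]
  congr 2
  ext p q
  exact (mul_assoc _ _ _).symm

private theorem AdInv_H_one (u : ∀ i, (Matrix (Fin (N i)) (Fin (N i)) ℝ)ˣ) :
    AdInv_H u (fun _ _ _ => 1) = 1 := by
  refine LinearMap.ext fun A => funext fun i => ?_
  rw [AdInv_H_apply, Module.End.one_apply]
  have h0 : Matrix.of (fun p q => (1 : ℝ) * (((u i)⁻¹).1 * A i * (u i).1) p q) =
      ((u i)⁻¹).1 * A i * (u i).1 := by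
    ext p q
    exact one_mul _
  have h1 : (u i).1 * ((u i)⁻¹).1 = 1 := (u i).mul_inv
  rw [h0, ← Matrix.mul_assoc, ← Matrix.mul_assoc, h1, Matrix.one_mul, Matrix.mul_assoc, h1,
    Matrix.mul_one]

private theorem AdInv_H_pow (u : ∀ i, (Matrix (Fin (N i)) (Fin (N i)) ℝ)ˣ)
    (d : ∀ i, Fin (N i) → Fin (N i) → ℝ) (k : ℕ) :
    AdInv_H u d ^ k = AdInv_H u (fun i p q => d i p q ^ k) := by
  induction k with
  | zero =>
    rw [pow_zero, ← AdInv_H_one u]
    simp only [pow_zero]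
  | succ k ih =>
    rw [pow_succ, ih, AdInv_H_mul]
    simp only [pow_succ]

private theorem AdInv_H_add (u : ∀ i, (Matrix (Fin (N i)) (Fin (N i)) ℝ)ˣ)
    (d d' : ∀ i, Fin (N i) → Fin (N i) → ℝ) :
    AdInv_H u d + AdInv_H u d' = AdInv_H u (fun i p q => d i p q + d' i p q) := by
  refine LinearMap.ext fun A => funext fun i => ?_
  rw [LinearMap.add_apply, Pi.add_apply, AdInv_H_apply, AdInv_H_apply, AdInv_H_apply,
    ← Matrix.add_mul, ← Matrix.mul_add]
  congr 2
  ext p q
  exact (add_mul _ _ _).symm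

private theorem AdInv_H_smul (u : ∀ i, (Matrix (Fin (N i)) (Fin (N i)) ℝ)ˣ)
    (d : ∀ i, Fin (N i) → Fin (N i) → ℝ) (c : ℝ) :
    c • AdInv_H u d = AdInv_H u (fun i p q => c * d i p q) := by
  refine LinearMap.ext fun A => funext fun i => ?_
  rw [LinearMap.smul_apply, Pi.smul_apply, AdInv_H_apply, AdInv_H_apply, ← Matrix.smul_mul,
    ← Matrix.mul_smul]
  congr 2
  ext p q
  exact (mul_assoc _ _ _).symm

private theorem AdInv_aeval (u : ∀ i, (Matrix (Fin (N i)) (Fin (N i)) ℝ)ˣ)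
    (d : ∀ i, Fin (N i) → Fin (N i) → ℝ) (P : Polynomial ℝ) :
    Polynomial.aeval (AdInv_H u d) P = AdInv_H u (fun i p q => P.eval (d i p q)) := by
  induction P using Polynomial.induction_on' with
  | add P Q hP hQ =>
    rw [map_add, hP, hQ, AdInv_H_add]
    simp only [Polynomial.eval_add]
  | monomial k c =>
    rw [Polynomial.aeval_monomial, AdInv_H_pow, ← Algebra.smul_def, AdInv_H_smul]
    simp only [Polynomial.eval_monomial]

private theorem AdInv_stab {T : Module.End ℝ (Alg N)} {g : Submodule ℝ (Alg N)}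
    (h : ∀ A ∈ g, T A ∈ g) (P : Polynomial ℝ) {A : Alg N} (hA : A ∈ g) :
    Polynomial.aeval T P A ∈ g := by
  induction P using Polynomial.induction_on' with
  | add P Q hP hQ =>
    rw [map_add, LinearMap.add_apply]
    exact g.add_mem hP hQ
  | monomial k c =>
    rw [Polynomial.aeval_monomial, ← Algebra.smul_def, LinearMap.smul_apply]
    refine g.smul_mem c ?_
    induction k with
    | zero =>
      rw [pow_zero]
      exact hA
    | succ k ih =>
      rw [pow_succ']
      exact h _ ih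

private theorem AdInv_spec {Z : Alg N} (hZ : ∀ i, (Z i)ᵀ = Z i) :
    ∃ (u : ∀ i, (Matrix (Fin (N i)) (Fin (N i)) ℝ)ˣ) (l : ∀ i, Fin (N i) → ℝ),
      (∀ A, br Z A = AdInv_H u (fun i p q => l i p - l i q) A) ∧
      ∀ A, cA (eu Z) A = AdInv_H u (fun i p q => Real.exp (l i p - l i q)) A := by
  have h1 : ∀ i, ∃ (u : (Matrix (Fin (N i)) (Fin (N i)) ℝ)ˣ) (l : Fin (N i) → ℝ),
      Z i = u.1 * diagonal l * (u⁻¹).1 := by
    intro i
    have hH : (Z i).IsHermitian := by
      rw [Matrix.IsHermitian, conjTranspose_eq_transpose_of_trivial, hZ i]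
    exact ⟨Unitary.toUnits hH.eigenvectorUnitary, hH.eigenvalues, hH.spectral_theorem⟩
  choose u l hl using h1
  have k1 : ∀ i, ((u i)⁻¹).1 * (u i).1 = 1 := fun i => (u i).inv_mul
  have k2 : ∀ i, (u i).1 * ((u i)⁻¹).1 = 1 := fun i => (u i).mul_inv
  refine ⟨u, l, fun A => funext fun i => ?_, fun A => funext fun i => ?_⟩
  · rw [AdInv_H_apply]
    have h2 : Matrix.of (fun p q => (l i p - l i q) * (((u i)⁻¹).1 * A i * (u i).1) p q) =
        diagonal (l i) * (((u i)⁻¹).1 * A i * (u i).1) -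
          (((u i)⁻¹).1 * A i * (u i).1) * diagonal (l i) := by
      ext p q
      rw [Matrix.sub_apply, Matrix.diagonal_mul, Matrix.mul_diagonal, Matrix.of_apply]
      ring
    rw [h2, Matrix.mul_sub, Matrix.sub_mul]
    show Z i * A i - A i * Z i = _
    rw [hl i]
    congr 1
    · simp only [Matrix.mul_assoc, k2 i, Matrix.mul_one]
    · have h3 : (u i).1 * (((u i)⁻¹).1 * A i * (u i).1 * diagonal (l i)) * ((u i)⁻¹).1 =
          ((u i).1 * ((u i)⁻¹).1) * A i * ((u i).1 * diagonal (l i) * ((u i)⁻¹).1) := by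
        simp only [Matrix.mul_assoc]
      rw [h3, k2 i, Matrix.one_mul]
  · rw [AdInv_H_apply]
    have e1 : exp (Z i) = (u i).1 * diagonal (fun j => Real.exp (l i j)) * ((u i)⁻¹).1 := by
      rw [hl i, Matrix.exp_units_conj, Matrix.exp_diagonal]
      congr 3
      funext j
      rw [Pi.coe_exp, Real.exp_eq_exp_ℝ]
    have e2 : exp (-Z i) = (u i).1 * diagonal (fun j => Real.exp (-l i j)) * ((u i)⁻¹).1 := by
      have e3 : -Z i = (u i).1 * diagonal (fun j => -l i j) * ((u i)⁻¹).1 := by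
        rw [hl i, ← Matrix.neg_mul, ← Matrix.mul_neg, Matrix.diagonal_neg]
      rw [e3, Matrix.exp_units_conj, Matrix.exp_diagonal]
      congr 3
      funext j
      rw [Pi.coe_exp, Real.exp_eq_exp_ℝ]
    have h2 : Matrix.of (fun p q => Real.exp (l i p - l i q) *
        (((u i)⁻¹).1 * A i * (u i).1) p q) =
        diagonal (fun j => Real.exp (l i j)) * (((u i)⁻¹).1 * A i * (u i).1) *
          diagonal (fun j => Real.exp (-l i j)) := by
      ext p q
      rw [Matrix.mul_diagonal, Matrix.diagonal_mul, Matrix.of_apply, sub_eq_add_neg, Real.exp_add]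
      ring
    rw [h2]
    show exp (Z i) * A i * exp (-Z i) = _
    rw [e1, e2]
    simp only [Matrix.mul_assoc]

theorem cA_gV (hV : Trp V) {X A : Alg N} (hX : X ∈ V) (hA : A ∈ gV V) :
    cA (eu X) A ∈ gV V := by
  obtain ⟨u, l, h1, h2⟩ := AdInv_spec (hV.sym X hX)
  have h3 : ∀ A ∈ gV V, AdInv_H u (fun i p q => l i p - l i q) A ∈ gV V := fun A hA => by
    rw [← h1]
    exact br_gV hV hX hA
  set S : Finset ℝ := Finset.univ.image
    (fun x : Σ i, Fin (N i) × Fin (N i) => l x.1 x.2.1 - l x.1 x.2.2) with hS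
  have h4 := AdInv_stab h3 (Lagrange.interpolate S id Real.exp) hA
  rw [AdInv_aeval] at h4
  have h5 : (fun (i : Fin n) (p q : Fin (N i)) =>
      (Lagrange.interpolate S id Real.exp).eval (l i p - l i q)) =
      fun i p q => Real.exp (l i p - l i q) := by
    funext i p q
    have h6 : l i p - l i q ∈ S := Finset.mem_image.2 ⟨⟨i, p, q⟩, Finset.mem_univ _, rfl⟩
    have h7 := Lagrange.eval_interpolate_at_node Real.exp (Set.injOn_id (S : Set ℝ)) h6
    rw [id] at h7
    exact h7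
  rw [h5, ← h2] at h4
  exact h4

theorem ad_of_Ad {Z : Alg N} (hZ : ∀ i, (Z i)ᵀ = Z i) {g : Submodule ℝ (Alg N)}
    (h : ∀ A ∈ g, cA (eu Z) A ∈ g) {A : Alg N} (hA : A ∈ g) : br Z A ∈ g := by
  obtain ⟨u, l, h1, h2⟩ := AdInv_spec hZ
  have h3 : ∀ A ∈ g, AdInv_H u (fun i p q => Real.exp (l i p - l i q)) A ∈ g := fun A hA => by
    rw [← h2]
    exact h A hA
  set S : Finset ℝ := Finset.univ.image
    (fun x : Σ i, Fin (N i) × Fin (N i) => Real.exp (l x.1 x.2.1 - l x.1 x.2.2)) with hS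
  have h4 := AdInv_stab h3 (Lagrange.interpolate S id Real.log) hA
  rw [AdInv_aeval] at h4
  have h5 : (fun (i : Fin n) (p q : Fin (N i)) =>
      (Lagrange.interpolate S id Real.log).eval (Real.exp (l i p - l i q))) =
      fun i p q => l i p - l i q := by
    funext i p q
    have h6 : Real.exp (l i p - l i q) ∈ S :=
      Finset.mem_image.2 ⟨⟨i, p, q⟩, Finset.mem_univ _, rfl⟩
    have h7 := Lagrange.eval_interpolate_at_node Real.log (Set.injOn_id (S : Set ℝ)) h6
    rw [id, Real.log_exp] at h7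
    exact h7
  rw [h5, ← h1] at h4
  exact h4

end Pool.Agent.MP_417c68_gt
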