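import Pool.Agent.Lib.MP_417c68_gt_P.I.DetArg

/-!
# MP_417c68_gt, project P, module I/Alpha: `exp X exp Y exp X ∈ exp V`

PROOFS (text, section 9, (GV)).
* `alpha₀` (centreless `V`).  `g = eu ((1/2) • Y) * eu X ∈ G`, `gᵀ g = exp X exp Y exp X`, so by
  `SelfAdj.polar` there is
  `Z ∈ pp G` with `eu X * eu Y * eu X = eu Z`.  `cA (eu Z)` preserves `gV V` (`cA_gV`), so `br Z`
  does
  (`ad_of_Ad`).  Let `Z = Z₀ + c`, `Z₀ ∈ V`, `c` symmetric and `ip c X' = 0` for `X' ∈ V`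
  (orthogonal
  decomposition in the symmetric elements).  For `U ∈ V`: `br c U = br Z U - br Z₀ U ∈ gV V` is
  skew, so in
  `kV V`; `ip (br c U) (br A B) = ± ip c (br U (br A B)) = 0` for `A, B ∈ V`, so `ip (br c U) (br c
  U) = 0`,
  `br c U = 0`.  So `c` commutes with `V`, `eu c = eu (-Z₀) * eu X * eu Y * eu X` and `c = 0` by
  `det_arg`,
  `perfect`.
* `alpha`: `C` = the centre of `V` (elements of `V` commuting with `V`), `V'` = its orthogonal
  complement in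
  `V`: a centreless Lie triple.  `X = X₁ + X'`, `Y = Y₁ + Y'`:
  `eu X * eu Y * eu X = eu (2 X₁ + Y₁) * (eu X' * eu Y' * eu X')` (`eu_add`).
-/

noncomputable section

namespace Pool.Agent.MP_417c68_gt

open Matrix NormedSpace

variable {n : ℕ} {N : Fin n → ℕ} {V : Submodule ℝ (Alg N)} {G : Subgroup (Alg N)ˣ}

private theorem alpha_rep (P : Submodule ℝ (Alg N)) (hP : ∀ X ∈ P, ∀ i, (X i)ᵀ = X i)
    (v : Alg N) : ∃ m ∈ P, ∀ y ∈ P, ip m y = ip v y := by
  have hadd : ∀ X Y Z : Alg N, ip X (Y + Z) = ip X Y + ip X Z := fun X Y Z => by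
    rw [ip_comm X (Y + Z), ip_add_left, ip_comm Y X, ip_comm Z X]
  have hsm : ∀ (c : ℝ) (X Y : Alg N), ip X (c • Y) = c * ip X Y := fun c X Y => by
    rw [ip_comm X (c • Y), ip_smul_left, ip_comm Y X]
  let F : Alg N → Module.Dual ℝ P := fun X =>
    { toFun := fun y => ip X y.1
      map_add' := fun a b => hadd X a.1 b.1
      map_smul' := fun c a => hsm c X a.1 }
  have hF : ∀ X (y : P), F X y = ip X y.1 := fun X y => rfl
  let T : P →ₗ[ℝ] Module.Dual ℝ P :=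
    { toFun := fun X => F X.1
      map_add' := fun A B => by
        ext y
        rw [LinearMap.add_apply, hF, hF, hF, Submodule.coe_add, ip_add_left]
      map_smul' := fun c A => by
        ext y
        rw [RingHom.id_apply, LinearMap.smul_apply, hF, hF, Submodule.coe_smul, ip_smul_left,
          smul_eq_mul] }
  have hT : ∀ (X y : P), T X y = ip X.1 y.1 := fun X y => rfl
  have hinj : Function.Injective T := by
    rw [← LinearMap.ker_eq_bot, LinearMap.ker_eq_bot']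
    intro Y hY
    have h1 : T Y Y = 0 := by rw [hY]; rfl
    rw [hT] at h1
    exact Subtype.ext (ip_self_zero (hP _ Y.2) h1)
  have hsurj : Function.Surjective T :=
    (LinearMap.injective_iff_surjective_of_finrank_eq_finrank
      (Subspace.dual_finrank_eq (K := ℝ) (V := P)).symm).1 hinj
  obtain ⟨z, hz⟩ := hsurj (F v)
  refine ⟨z.1, z.2, fun y hy => ?_⟩
  have h2 := LinearMap.congr_fun hz ⟨y, hy⟩
  rw [hT, hF] at h2
  exact h2

private theorem alpha_half {m : ℕ} (A : Matrix (Fin m) (Fin m) ℝ) :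
    exp ((1 / 2 : ℝ) • A) * exp ((1 / 2 : ℝ) • A) = exp A := by
  rw [← Matrix.exp_add_of_commute _ _ (Commute.refl _), ← add_smul]
  norm_num

private theorem alpha_expT {m : ℕ} {A : Matrix (Fin m) (Fin m) ℝ} (hA : Aᵀ = A) :
    (exp A)ᵀ = exp A := by
  rw [← Matrix.exp_transpose, hA]

private theorem alpha_polar (hG : SelfAdj G) {X Y : Alg N} (hX : X ∈ pp G) (hY : Y ∈ pp G) :
    ∃ Z ∈ pp G, eu X * eu Y * eu X = eu Z := by
  have h1 : eu X ∈ G := by
    have := hX.2 1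
    rwa [one_smul] at this
  have h2 : eu ((1 / 2 : ℝ) • Y) ∈ G := hY.2 _
  obtain ⟨Z, hZ, he⟩ := hG.polar _ (G.mul_mem h2 h1)
  refine ⟨Z, hZ, Units.ext (funext fun i => ?_)⟩
  show exp (X i) * exp (Y i) * exp (X i) = exp (Z i)
  rw [← he i]
  show _ = (exp (((1 / 2 : ℝ) • Y) i) * exp (X i))ᵀ * (exp (((1 / 2 : ℝ) • Y) i) * exp (X i))
  rw [Matrix.transpose_mul, alpha_expT (hX.1 i), Pi.smul_apply,
    alpha_expT (A := (1 / 2 : ℝ) • Y i) (by rw [Matrix.transpose_smul, hY.1 i]),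
    Matrix.mul_assoc (exp (X i)) (exp ((1 / 2 : ℝ) • Y i)), ← Matrix.mul_assoc
      (exp ((1 / 2 : ℝ) • Y i)) (exp ((1 / 2 : ℝ) • Y i)), alpha_half, Matrix.mul_assoc]

private theorem alpha_skew {A B : Alg N} (hA : ∀ i, (A i)ᵀ = A i) (hB : ∀ i, (B i)ᵀ = B i)
    (i : Fin n) : ((br A B) i)ᵀ = -((br A B) i) := by
  show (A i * B i - B i * A i)ᵀ = -(A i * B i - B i * A i)
  rw [Matrix.transpose_sub, Matrix.transpose_mul, Matrix.transpose_mul, hA i, hB i, neg_sub]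

private theorem alpha_inv (A B C : Alg N) : ip (br A B) C = ip A (br B C) := by
  unfold ip
  refine Finset.sum_congr rfl fun i _ => ?_
  show ((A i * B i - B i * A i) * C i).trace = (A i * (B i * C i - C i * B i)).trace
  rw [Matrix.sub_mul, Matrix.mul_sub, Matrix.trace_sub, Matrix.trace_sub, Matrix.mul_assoc,
    Matrix.mul_assoc (B i) (A i) (C i), Matrix.trace_mul_comm (B i), Matrix.mul_assoc]

private theorem alpha_skew_zero {A : Alg N} (hA : ∀ i, (A i)ᵀ = -(A i)) (h : ip A A = 0) :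
    A = 0 := by
  have h1 : ∀ i, (A i * A i).trace = -(((A i)ᵀ * A i).trace) := fun i => by
    rw [hA i, Matrix.neg_mul, Matrix.trace_neg, neg_neg]
  have h2 : ∑ i, ((A i)ᵀ * A i).trace = 0 := by
    have h3 : ip A A = -∑ i, ((A i)ᵀ * A i).trace := by
      unfold ip
      rw [← Finset.sum_neg_distrib]
      exact Finset.sum_congr rfl fun i _ => h1 i
    rw [h3, neg_eq_zero] at h
    exact h
  have h4 := (Finset.sum_eq_zero_iff_of_nonneg fun i _ => fr_nonneg' (A i)).1 h2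
  funext i
  have h5 := h4 i (Finset.mem_univ i)
  rw [← Matrix.conjTranspose_eq_transpose_of_trivial] at h5
  exact Matrix.trace_conjTranspose_mul_self_eq_zero_iff.1 h5

theorem alpha₀ (hG : SelfAdj G) (hVG : ∀ X ∈ V, X ∈ pp G) (hV : Trp V)
    (hc : ∀ X ∈ V, (∀ Y ∈ V, X * Y = Y * X) → X = 0) {X Y : Alg N} (hX : X ∈ V) (hY : Y ∈ V) :
    ∃ Z ∈ V, eu X * eu Y * eu X = eu Z := by
  have hsymm : ∀ X ∈ V, ∀ i, (X i)ᵀ = X i := hV.sym
  obtain ⟨Z, hZ, he⟩ := alpha_polar hG (hVG X hX) (hVG Y hY)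
  have hgV : ∀ A ∈ gV V, cA (eu Z) A ∈ gV V := by
    intro A hA
    rw [← he, cA_mul, cA_mul]
    exact cA_gV hV hX (cA_gV hV hY (cA_gV hV hX hA))
  obtain ⟨Z₀, hZ₀, hrep⟩ := alpha_rep V hsymm Z
  have hcs : ∀ i, ((Z - Z₀) i)ᵀ = (Z - Z₀) i := fun i => by
    rw [Pi.sub_apply, Matrix.transpose_sub, hZ.1 i, hsymm Z₀ hZ₀ i]
  have hc0 : ∀ y ∈ V, ip (Z - Z₀) y = 0 := fun y hy => by
    rw [ip_sub_left, hrep y hy, sub_self]
  have hcom : ∀ U ∈ V, (Z - Z₀) * U = U * (Z - Z₀) := by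
    intro U hU
    have h1 : br (Z - Z₀) U ∈ gV V := by
      have e : br (Z - Z₀) U = br Z U - br Z₀ U := by
        simp only [br]
        noncomm_ring
      rw [e]
      exact (gV V).sub_mem (ad_of_Ad hZ.1 hgV (Submodule.mem_sup_left hU))
        (Submodule.mem_sup_right (Submodule.subset_span ⟨Z₀, hZ₀, U, hU, rfl⟩))
    have h2 : ∀ i, ((br (Z - Z₀) U) i)ᵀ = -((br (Z - Z₀) U) i) :=
      alpha_skew hcs (hsymm U hU)
    have h3 := gV_skew hV h1 h2
    have h4 : ∀ A ∈ kV V, ip (br (Z - Z₀) U) A = 0 := by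
      intro A hA
      refine Submodule.span_induction (p := fun A _ => ip (br (Z - Z₀) U) A = 0) ?_ ?_ ?_ ?_ hA
      · rintro _ ⟨A₁, hA₁, B₁, hB₁, rfl⟩
        rw [alpha_inv]
        refine hc0 _ ?_
        have e : br U (br A₁ B₁) = -br (br A₁ B₁) U := by
          simp only [br]
          abel
        rw [e]
        exact V.neg_mem (hV.tri _ hA₁ _ hB₁ _ hU)
      · rw [ip_comm, ip_zero_left]
      · intro a b _ _ ha hb
        rw [ip_comm, ip_add_left, ip_comm a, ip_comm b, ha, hb, add_zero]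
      · intro r a _ ha
        rw [ip_comm, ip_smul_left, ip_comm a, ha, mul_zero]
    have h5 := alpha_skew_zero h2 (h4 _ h3)
    exact sub_eq_zero.1 h5
  have hec : eu (Z - Z₀) = ([-Z₀, X, Y, X].map eu).prod := by
    have h6 : eu Z = eu Z₀ * eu (Z - Z₀) := by
      rw [← eu_add (hcom Z₀ hZ₀).symm, add_sub_cancel]
    simp only [List.map_cons, List.map_nil, List.prod_cons, List.prod_nil, mul_one]
    rw [eu_neg, eq_inv_mul_iff_mul_eq, ← h6, ← he, mul_assoc]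
  have hmem : ∀ A ∈ [-Z₀, X, Y, X], A ∈ V := by
    intro A hA
    simp only [List.mem_cons, List.not_mem_nil, or_false] at hA
    rcases hA with rfl | rfl | rfl | rfl
    · exact V.neg_mem hZ₀
    · exact hX
    · exact hY
    · exact hX
  have hzero := det_arg hV (perfect hV hc) hcs hcom hmem hec
  rw [sub_eq_zero] at hzero
  exact ⟨Z₀, hZ₀, by rw [← hzero]; exact he⟩

theorem alpha (hG : SelfAdj G) (hVG : ∀ X ∈ V, X ∈ pp G) (hV : Trp V) {X Y : Alg N}
    (hX : X ∈ V) (hY : Y ∈ V) : ∃ Z ∈ V, eu X * eu Y * eu X = eu Z := by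
  let C : Submodule ℝ (Alg N) :=
    { carrier := {X | X ∈ V ∧ ∀ Y ∈ V, X * Y = Y * X}
      zero_mem' := ⟨V.zero_mem, fun Y _ => by rw [zero_mul, mul_zero]⟩
      add_mem' := fun {a b} ha hb => ⟨V.add_mem ha.1 hb.1, fun Y hY => by
        rw [add_mul, mul_add, ha.2 Y hY, hb.2 Y hY]⟩
      smul_mem' := fun r {a} ha => ⟨V.smul_mem r ha.1, fun Y hY => by
        rw [smul_mul_assoc, mul_smul_comm, ha.2 Y hY]⟩ }
  have hC : ∀ {X : Alg N}, X ∈ C ↔ X ∈ V ∧ ∀ Y ∈ V, X * Y = Y * X := Iff.rfl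
  let V' : Submodule ℝ (Alg N) :=
    { carrier := {X | X ∈ V ∧ ∀ c ∈ C, ip X c = 0}
      zero_mem' := ⟨V.zero_mem, fun Y _ => ip_zero_left Y⟩
      add_mem' := fun {a b} ha hb => ⟨V.add_mem ha.1 hb.1, fun Y hY => by
        rw [ip_add_left, ha.2 Y hY, hb.2 Y hY, add_zero]⟩
      smul_mem' := fun r {a} ha => ⟨V.smul_mem r ha.1, fun Y hY => by
        rw [ip_smul_left, ha.2 Y hY, mul_zero]⟩ }
  have hV' : ∀ {X : Alg N}, X ∈ V' ↔ X ∈ V ∧ ∀ c ∈ C, ip X c = 0 := Iff.rfl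
  have hdec : ∀ X ∈ V, ∃ c ∈ C, X - c ∈ V' := by
    intro X hX
    obtain ⟨c, hc, hr⟩ := alpha_rep C (fun A hA => hV.sym A (hC.1 hA).1) X
    refine ⟨c, hc, hV'.2 ⟨V.sub_mem hX hc.1, fun y hy => ?_⟩⟩
    rw [ip_sub_left, hr y hy, sub_self]
  have hT : Trp V' := by
    constructor
    · intro A hA
      exact hV.sym A hA.1
    · intro A hA B hB D hD
      refine hV'.2 ⟨hV.tri A hA.1 B hB.1 D hD.1, fun c hc => ?_⟩
      have e : br D c = 0 := by
        unfold br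
        rw [hc.2 D hD.1, sub_self]
      rw [alpha_inv, e, ip_comm, ip_zero_left]
  have hcl : ∀ X ∈ V', (∀ Y ∈ V', X * Y = Y * X) → X = 0 := by
    intro A hA hcom
    have hAC : A ∈ C := by
      refine hC.2 ⟨hA.1, fun B hB => ?_⟩
      obtain ⟨c, hc, hBc⟩ := hdec B hB
      have e1 := hcom _ hBc
      have e2 := hc.2 A hA.1
      rw [mul_sub, sub_mul, e2] at e1
      exact sub_left_inj.1 e1
    exact ip_self_zero (hV.sym A hA.1) (hA.2 A hAC)
  obtain ⟨c, hc, hXc⟩ := hdec X hX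
  obtain ⟨d, hd, hYd⟩ := hdec Y hY
  obtain ⟨Z', hZ', he⟩ := alpha₀ hG (V := V')
    (fun A hA => hVG A (hV'.1 hA).1) hT hcl hXc hYd
  have hcomm : ∀ {a b : Alg N}, a ∈ C → b ∈ V → Commute (eu a) (eu b) := by
    intro a b ha hb
    show eu a * eu b = eu b * eu a
    rw [← eu_add (ha.2 b hb), ← eu_add (ha.2 b hb).symm, add_comm]
  have eX : eu X = eu c * eu (X - c) := by
    rw [← eu_add (hc.2 _ hXc.1), add_sub_cancel]
  have eY : eu Y = eu d * eu (Y - d) := by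
    rw [← eu_add (hd.2 _ hYd.1), add_sub_cancel]
  refine ⟨c + d + c + Z', V.add_mem (V.add_mem (V.add_mem hc.1 hd.1) hc.1) hZ'.1, ?_⟩
  have hcdc : c + d + c ∈ C := C.add_mem (C.add_mem hc hd) hc
  rw [eu_add (hcdc.2 Z' hZ'.1), eu_add ((C.add_mem hc hd).2 c hc.1), eu_add (hc.2 d hd.1),
    ← he, eX, eY]
  have k1 : eu (X - c) * (eu d * eu (Y - d)) = eu d * (eu (X - c) * eu (Y - d)) := by
    rw [← mul_assoc, ← (hcomm hd hXc.1).eq, mul_assoc]
  have k2 : eu (X - c) * eu (Y - d) * (eu c * eu (X - c)) =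
      eu c * (eu (X - c) * eu (Y - d) * eu (X - c)) := by
    rw [← mul_assoc, mul_assoc (eu (X - c)), ← (hcomm hc hYd.1).eq, ← mul_assoc (eu (X - c)),
      ← (hcomm hc hXc.1).eq]
    simp only [mul_assoc]
  rw [mul_assoc (eu c), k1, mul_assoc (eu c), mul_assoc (eu d), k2]
  simp only [mul_assoc]

end Pool.Agent.MP_417c68_gt
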