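import Pool.Agent.Lib.MP_417c68_gt_P.I.AdInv
import Pool.Agent.Lib.MP_417c68_gt_P.B.Inn

/-!
# MP_417c68_gt, project P, module I/Bridge: `𝔭(G)` as a Lie triple system

PROOF.  `E = Fin d → ℝ` (or `EuclideanSpace`), `d = finrank ℝ (pS G)`, `φ` from a basis of `pS G`
(`Module.finBasis`, `Basis.equivFun`).  Transport `T x y z = [[x, y], z]` and `ip` by `φ`.
* `pS G` is a Lie triple: `lie_br` twice; the result is symmetric.
* `neg`: `∑ i j, ip [[x_i, y_i], x_j] y_j = ∑ i j, ip [x_i, y_i] [x_j, y_j] = ip Ω Ω ≤ 0` for the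
  skew `Ω = ∑ [x_i, y_i]`
  (`tr (Ω Ω) = - tr (Ωᵀ Ω)`).
* `K`: the set of all `u ∈ GL(E)` such that `u = φ ∘ Ad k ∘ φ⁻¹` for some `k ∈ G`, `Orth k`
  (`pp_cA`): the image of
  the compact connected group `{k ∈ G : Orth k}` (`isCompact_orth`, `hG.closed`, `hK`) under a
  continuous
  homomorphism to `GL(E)` (continuity: the matrix entries of `φ ∘ Ad k ∘ φ⁻¹` and of its inverse are
  continuous functions of `k`).
* `Inn ≤ K`: `exp (T x y)` corresponds to `Ad (exp [x, y])` (`eu (br x y) ∈ G` since `br x y ∈ lie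
  G`,
  `Orth` since `br x y` is skew; `LTS.ex_nat` or the uniqueness of solutions of `c' = [ξ, c]`), `K`
  is a closed
  subgroup: `Subgroup.topologicalClosure_minimal`.
* `Aut`: conjugation by `k` preserves products and traces.
-/

noncomputable section

namespace Pool.Agent.MP_417c68_gt

open Matrix NormedSpace Pool.Agent.MP417P

variable {n : ℕ} {N : Fin n → ℕ} {G : Subgroup (Alg N)ˣ}

section expLR

variable {𝔸 : Type} [NormedRing 𝔸] [NormedAlgebra ℝ 𝔸] [CompleteSpace 𝔸]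

private theorem bdg_exp_apply (X : 𝔸 →L[ℝ] 𝔸) (Z : 𝔸) :
    HasSum (fun n : ℕ => ((n.factorial : ℝ)⁻¹) • ((X ^ n) Z)) ((exp X) Z) := by
  have h := NormedSpace.exp_series_hasSum_exp' (𝕂 := ℝ) X
  exact h.mapL (ContinuousLinearMap.apply ℝ 𝔸 Z)

private theorem bdg_exp_L (A Z : 𝔸) : exp (ContinuousLinearMap.mul ℝ 𝔸 A) Z = exp A * Z := by
  have hp : ∀ n : ℕ, ((ContinuousLinearMap.mul ℝ 𝔸 A) ^ n) Z = A ^ n * Z := by
    intro n
    induction n with
    | zero => rw [pow_zero, pow_zero, one_mul]; rfl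
    | succ n ih =>
      rw [pow_succ', pow_succ', mul_assoc, ← ih]
      rfl
  have h1 := bdg_exp_apply (ContinuousLinearMap.mul ℝ 𝔸 A) Z
  have h2 := (NormedSpace.exp_series_hasSum_exp' (𝕂 := ℝ) A).mul_right Z
  simp only [hp] at h1
  simp only [smul_mul_assoc] at h2
  exact h1.unique h2

private theorem bdg_exp_R (A Z : 𝔸) :
    exp (-(ContinuousLinearMap.mul ℝ 𝔸).flip A) Z = Z * exp (-A) := by
  have hp : ∀ n : ℕ, ((-(ContinuousLinearMap.mul ℝ 𝔸).flip A) ^ n) Z = Z * (-A) ^ n := by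
    intro n
    induction n with
    | zero => rw [pow_zero, pow_zero, mul_one]; rfl
    | succ n ih =>
      rw [pow_succ', pow_succ, ← mul_assoc, ← ih, mul_neg]
      rfl
  have h1 := bdg_exp_apply (-(ContinuousLinearMap.mul ℝ 𝔸).flip A) Z
  have h2 := (NormedSpace.exp_series_hasSum_exp' (𝕂 := ℝ) (-A)).mul_left Z
  simp only [hp] at h1
  simp only [mul_smul_comm] at h2
  exact h1.unique h2

private theorem bdg_exp_LR (A Z : 𝔸) :
    exp (ContinuousLinearMap.mul ℝ 𝔸 A + -(ContinuousLinearMap.mul ℝ 𝔸).flip A) Z =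
      exp A * Z * exp (-A) := by
  have hc : Commute (ContinuousLinearMap.mul ℝ 𝔸 A) (-(ContinuousLinearMap.mul ℝ 𝔸).flip A) := by
    refine Commute.neg_right ?_
    refine ContinuousLinearMap.ext fun x => ?_
    show A * (x * A) = A * x * A
    rw [mul_assoc]
  let +nondep : NormedAlgebra ℚ (𝔸 →L[ℝ] 𝔸) := .restrictScalars ℚ ℝ (𝔸 →L[ℝ] 𝔸)
  rw [NormedSpace.exp_add_of_commute hc, mul_assoc, ← bdg_exp_R A Z, ← bdg_exp_L A]
  rfl

private theorem bdg_nat [FiniteDimensional ℝ 𝔸] {E : Type} [NormedAddCommGroup E]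
    [NormedSpace ℝ E] [FiniteDimensional ℝ E] {A : 𝔸} {D : E →L[ℝ] E} {f : E →ₗ[ℝ] 𝔸}
    (h : ∀ z, f (D z) = A * f z - f z * A) (z : E) :
    f ((LTS.ex D).1 z) = exp A * f z * exp (-A) := by
  have h1 : ∀ z, f (D z) =
      (ContinuousLinearMap.mul ℝ 𝔸 A + -(ContinuousLinearMap.mul ℝ 𝔸).flip A) (f z) := by
    intro z
    rw [h z, sub_eq_add_neg]
    rfl
  rw [LTS.ex_nat h1 z, ← bdg_exp_LR]
  rfl

end expLR

set_option backward.isDefEq.respectTransparency false in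
private theorem bdg_mat {E : Type} [NormedAddCommGroup E] [NormedSpace ℝ E]
    [FiniteDimensional ℝ E] {m : ℕ} {A : Matrix (Fin m) (Fin m) ℝ} {D : E →L[ℝ] E}
    {f : E →ₗ[ℝ] Matrix (Fin m) (Fin m) ℝ} (h : ∀ z, f (D z) = A * f z - f z * A) (z : E) :
    f ((LTS.ex D).1 z) = exp A * f z * exp (-A) := by
  open scoped Norms.Operator in exact bdg_nat h z

/-! ### brackets -/

private theorem bdg_br_add_left (X Y Z : Alg N) : br (X + Y) Z = br X Z + br Y Z := by
  unfold br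
  rw [add_mul, mul_add]
  abel

private theorem bdg_br_add_right (X Y Z : Alg N) : br X (Y + Z) = br X Y + br X Z := by
  unfold br
  rw [add_mul, mul_add]
  abel

private theorem bdg_br_smul_left (c : ℝ) (X Y : Alg N) : br (c • X) Y = c • br X Y := by
  unfold br
  rw [smul_mul_assoc, mul_smul_comm, smul_sub]

private theorem bdg_br_smul_right (c : ℝ) (X Y : Alg N) : br X (c • Y) = c • br X Y := by
  unfold br
  rw [smul_mul_assoc, mul_smul_comm, smul_sub]

private theorem bdg_br_skew (X Y : Alg N) : br X Y = -br Y X := by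
  unfold br
  rw [neg_sub]

private theorem bdg_br_neg_left (X Y : Alg N) : br (-X) Y = -br X Y := by
  unfold br
  rw [neg_mul, mul_neg]
  abel

private theorem bdg_jac (X Y Z : Alg N) :
    br (br X Y) Z + br (br Y Z) X + br (br Z X) Y = 0 := by
  unfold br
  noncomm_ring

private theorem bdg_der0 (A X Y : Alg N) : br A (br X Y) = br (br A X) Y + br X (br A Y) := by
  unfold br
  noncomm_ring

private theorem bdg_der (A X Y Z : Alg N) : br A (br (br X Y) Z) =
    br (br (br A X) Y) Z + br (br X (br A Y)) Z + br (br X Y) (br A Z) := by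
  rw [bdg_der0, bdg_der0, bdg_br_add_left]

private theorem bdg_ip_br (W X Y : Alg N) : ip (br W X) Y = ip W (br X Y) := by
  unfold ip
  refine Finset.sum_congr rfl fun i _ => ?_
  show ((W i * X i - X i * W i) * Y i).trace = (W i * (X i * Y i - Y i * X i)).trace
  rw [sub_mul, mul_sub, Matrix.trace_sub, Matrix.trace_sub, mul_assoc, mul_assoc,
    Matrix.trace_mul_comm (X i) (W i * Y i), mul_assoc]

private theorem bdg_ip_sum {m : ℕ} (X : Fin m → Alg N) :
    ∑ i, ∑ j, ip (X i) (X j) = ip (∑ i, X i) (∑ i, X i) := by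
  have h1 : ∀ Z : Alg N, ip (∑ i, X i) Z = ∑ i, ip (X i) Z := by
    intro Z
    let f : Alg N →ₗ[ℝ] ℝ :=
      { toFun := fun W => ip W Z
        map_add' := fun a b => ip_add_left a b Z
        map_smul' := fun c a => ip_smul_left c a Z }
    exact map_sum f X Finset.univ
  rw [h1]
  refine Finset.sum_congr rfl fun i _ => ?_
  rw [ip_comm, h1]
  exact Finset.sum_congr rfl fun j _ => ip_comm _ _

private theorem bdg_ip_skew {W : Alg N} (h : ∀ i, (W i)ᵀ = -(W i)) : ip W W ≤ 0 := by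
  unfold ip
  refine Finset.sum_nonpos fun i _ => ?_
  have h1 : (W i * W i).trace = -fr (W i) := by
    unfold fr
    rw [h i, neg_mul, Matrix.trace_neg, neg_neg]
  rw [h1]
  exact neg_nonpos.2 (fr_nonneg _)

private theorem bdg_br_sym {X Y : Alg N} (hX : ∀ i, (X i)ᵀ = X i) (hY : ∀ i, (Y i)ᵀ = Y i)
    (i : Fin n) : ((br X Y) i)ᵀ = -((br X Y) i) := by
  show (X i * Y i - Y i * X i)ᵀ = -(X i * Y i - Y i * X i)
  rw [Matrix.transpose_sub, Matrix.transpose_mul, Matrix.transpose_mul, hX i, hY i, neg_sub]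

private theorem bdg_skew_sum {m : ℕ} {X : Fin m → Alg N} (h : ∀ j i, (X j i)ᵀ = -(X j i))
    (i : Fin n) : ((∑ j, X j) i)ᵀ = -((∑ j, X j) i) := by
  rw [Finset.sum_apply, Matrix.transpose_sum, ← Finset.sum_neg_distrib]
  exact Finset.sum_congr rfl fun j _ => h j i

private theorem bdg_cA_br (k : (Alg N)ˣ) (X Y : Alg N) :
    cA k (br X Y) = br (cA k X) (cA k Y) := by
  have h1 : ∀ X Y : Alg N, cA k (X * Y) = cA k X * cA k Y := by
    intro X Y
    show k.1 * (X * Y) * (k⁻¹).1 = k.1 * X * (k⁻¹).1 * (k.1 * Y * (k⁻¹).1)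
    have h2 : (k⁻¹).1 * k.1 = 1 := k.inv_mul
    calc k.1 * (X * Y) * (k⁻¹).1 = k.1 * X * 1 * Y * (k⁻¹).1 := by
          rw [mul_one, mul_assoc k.1 X Y]
      _ = k.1 * X * ((k⁻¹).1 * k.1) * Y * (k⁻¹).1 := by rw [h2]
      _ = _ := by simp only [mul_assoc]
  unfold br
  rw [cA_sub, h1, h1]

/-! ### the Lie triple system -/

variable {V : Submodule ℝ (Alg N)}

/-- the triple product on `V` -/
private def bdgT (hV : Trp V) : V →ₗ[ℝ] V →ₗ[ℝ] V →ₗ[ℝ] V :=
  LinearMap.mk₂ ℝ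
    (fun x y =>
      { toFun := fun z => ⟨br (br x.1 y.1) z.1, hV.tri x.1 x.2 y.1 y.2 z.1 z.2⟩
        map_add' := fun a b => Subtype.ext (bdg_br_add_right _ a.1 b.1)
        map_smul' := fun c a => Subtype.ext (bdg_br_smul_right c _ a.1) })
    (fun a b y => LinearMap.ext fun z => Subtype.ext (by
      show br (br (a.1 + b.1) y.1) z.1 = br (br a.1 y.1) z.1 + br (br b.1 y.1) z.1
      rw [bdg_br_add_left, bdg_br_add_left]))
    (fun c a y => LinearMap.ext fun z => Subtype.ext (by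
      show br (br (c • a.1) y.1) z.1 = c • br (br a.1 y.1) z.1
      rw [bdg_br_smul_left, bdg_br_smul_left]))
    (fun a b y => LinearMap.ext fun z => Subtype.ext (by
      show br (br a.1 (b.1 + y.1)) z.1 = br (br a.1 b.1) z.1 + br (br a.1 y.1) z.1
      rw [bdg_br_add_right, bdg_br_add_left]))
    (fun c a y => LinearMap.ext fun z => Subtype.ext (by
      show br (br a.1 (c • y.1)) z.1 = c • br (br a.1 y.1) z.1
      rw [bdg_br_smul_right, bdg_br_smul_left]))

/-- the scalar product on `V` -/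
private def bdgI (V : Submodule ℝ (Alg N)) : V →ₗ[ℝ] V →ₗ[ℝ] ℝ :=
  LinearMap.mk₂ ℝ (fun x y => ip x.1 y.1)
    (fun a b y => ip_add_left a.1 b.1 y.1)
    (fun c a y => ip_smul_left c a.1 y.1)
    (fun a b y => by
      show ip a.1 (b.1 + y.1) = ip a.1 b.1 + ip a.1 y.1
      rw [ip_comm, ip_add_left, ip_comm b.1, ip_comm y.1])
    (fun c a y => by
      show ip a.1 (c • y.1) = c * ip a.1 y.1
      rw [ip_comm, ip_smul_left, ip_comm y.1])

/-- the transported Lie triple system -/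
private def bdgS (hV : Trp V) {E : Type} [AddCommGroup E] [Module ℝ E] (φ : V ≃ₗ[ℝ] E) :
    LTS E where
  T := LinearMap.mk₂ ℝ
    (fun x y => φ.toLinearMap ∘ₗ (bdgT hV (φ.symm x) (φ.symm y)) ∘ₗ φ.symm.toLinearMap)
    (fun a b y => by
      rw [map_add, map_add, LinearMap.add_apply, LinearMap.add_comp, LinearMap.comp_add])
    (fun c a y => by
      rw [map_smul, map_smul, LinearMap.smul_apply, LinearMap.smul_comp, LinearMap.comp_smul])
    (fun a b y => by
      rw [map_add, map_add, LinearMap.add_comp, LinearMap.comp_add])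
    (fun c a y => by
      rw [map_smul, map_smul, LinearMap.smul_comp, LinearMap.comp_smul])
  ip := (bdgI V).compl₁₂ φ.symm.toLinearMap φ.symm.toLinearMap
  symm x y := ip_comm _ _
  pos x hx := by
    show 0 < ip (φ.symm x).1 (φ.symm x).1
    have hs := hV.sym (φ.symm x).1 (φ.symm x).2
    refine lt_of_le_of_ne (ip_nonneg hs) fun h => hx ?_
    have h1 := ip_self_zero hs h.symm
    have h2 : φ.symm x = 0 := Subtype.ext h1
    exact (LinearEquiv.map_eq_zero_iff φ.symm).1 h2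
  skew x y z := by
    show φ (bdgT hV (φ.symm x) (φ.symm y) (φ.symm z)) =
      -φ (bdgT hV (φ.symm y) (φ.symm x) (φ.symm z))
    rw [← map_neg]
    congr 1
    refine Subtype.ext ?_
    show br (br (φ.symm x).1 (φ.symm y).1) (φ.symm z).1 =
      -br (br (φ.symm y).1 (φ.symm x).1) (φ.symm z).1
    rw [bdg_br_skew (φ.symm x).1, bdg_br_neg_left]
  jac x y z := by
    show φ (bdgT hV (φ.symm x) (φ.symm y) (φ.symm z)) +
      φ (bdgT hV (φ.symm y) (φ.symm z) (φ.symm x)) +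
      φ (bdgT hV (φ.symm z) (φ.symm x) (φ.symm y)) = 0
    rw [← map_add, ← map_add, LinearEquiv.map_eq_zero_iff]
    exact Subtype.ext (bdg_jac (φ.symm x).1 (φ.symm y).1 (φ.symm z).1)
  inv x y z w := by
    show ip (φ.symm (φ (bdgT hV (φ.symm x) (φ.symm y) (φ.symm z)))).1 (φ.symm w).1 =
      -ip (φ.symm z).1 (φ.symm (φ (bdgT hV (φ.symm x) (φ.symm y) (φ.symm w)))).1
    rw [LinearEquiv.symm_apply_apply, LinearEquiv.symm_apply_apply]
    show ip (br (br (φ.symm x).1 (φ.symm y).1) (φ.symm z).1) (φ.symm w).1 =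
      -ip (φ.symm z).1 (br (br (φ.symm x).1 (φ.symm y).1) (φ.symm w).1)
    have h1 : ∀ A Z W : Alg N, ip (br A Z) W = -ip Z (br A W) := by
      intro A Z W
      rw [bdg_br_skew A Z, ← neg_one_smul ℝ (br Z A), ip_smul_left, bdg_ip_br, neg_one_mul]
    exact h1 _ _ _
  der a b x y z := by
    show φ (bdgT hV (φ.symm a) (φ.symm b) (φ.symm (φ (bdgT hV (φ.symm x) (φ.symm y)
      (φ.symm z))))) =
      φ (bdgT hV (φ.symm (φ (bdgT hV (φ.symm a) (φ.symm b) (φ.symm x)))) (φ.symm y)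
        (φ.symm z)) +
      φ (bdgT hV (φ.symm x) (φ.symm (φ (bdgT hV (φ.symm a) (φ.symm b) (φ.symm y))))
        (φ.symm z)) +
      φ (bdgT hV (φ.symm x) (φ.symm y) (φ.symm (φ (bdgT hV (φ.symm a) (φ.symm b)
        (φ.symm z)))))
    simp only [LinearEquiv.symm_apply_apply]
    rw [← map_add, ← map_add]
    congr 1
    exact Subtype.ext (bdg_der (br (φ.symm a).1 (φ.symm b).1) (φ.symm x).1 (φ.symm y).1
      (φ.symm z).1)
  neg m x y := by
    have h1 : ∀ i j, ip (φ.symm (φ (bdgT hV (φ.symm (x i)) (φ.symm (y i))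
        (φ.symm (x j))))).1 (φ.symm (y j)).1 =
        ip (br (φ.symm (x i)).1 (φ.symm (y i)).1) (br (φ.symm (x j)).1 (φ.symm (y j)).1) := by
      intro i j
      rw [LinearEquiv.symm_apply_apply]
      exact bdg_ip_br _ _ _
    show ∑ i, ∑ j, ip (φ.symm (φ (bdgT hV (φ.symm (x i)) (φ.symm (y i))
        (φ.symm (x j))))).1 (φ.symm (y j)).1 ≤ 0
    rw [Finset.sum_congr rfl fun i _ => Finset.sum_congr rfl fun j _ => h1 i j,
      bdg_ip_sum fun i => br (φ.symm (x i)).1 (φ.symm (y i)).1]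
    exact bdg_ip_skew (bdg_skew_sum fun j => bdg_br_sym (hV.sym _ (φ.symm (x j)).2)
      (hV.sym _ (φ.symm (y j)).2))

private theorem bdgS_T (hV : Trp V) {E : Type} [AddCommGroup E] [Module ℝ E] (φ : V ≃ₗ[ℝ] E)
    (x y z : E) : ((φ.symm ((bdgS hV φ).T x y z) : V) : Alg N) =
      br (br (φ.symm x).1 (φ.symm y).1) (φ.symm z).1 := by
  show (φ.symm (φ (bdgT hV (φ.symm x) (φ.symm y) (φ.symm z)))).1 = _
  rw [LinearEquiv.symm_apply_apply]
  rfl

private theorem bdgS_ip (hV : Trp V) {E : Type} [AddCommGroup E] [Module ℝ E] (φ : V ≃ₗ[ℝ] E)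
    (x y : E) : (bdgS hV φ).ip x y = ip (φ.symm x).1 (φ.symm y).1 := rfl

private theorem bdg_trp (hG : SelfAdj G) : Trp (pS G) := by
  refine ⟨fun X hX => ((mem_pS hG.closed).1 hX).1, fun X hX Y hY Z hZ => ?_⟩
  have hX' := (mem_pS hG.closed).1 hX
  have hY' := (mem_pS hG.closed).1 hY
  have hZ' := (mem_pS hG.closed).1 hZ
  refine (mem_pS hG.closed).2 ⟨fun i => ?_, lie_br hG.closed (lie_br hG.closed hX'.2 hY'.2) hZ'.2⟩
  have h1 := bdg_br_sym hX'.1 hY'.1 i
  show ((br X Y) i * Z i - Z i * (br X Y) i)ᵀ = (br X Y) i * Z i - Z i * (br X Y) i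
  rw [Matrix.transpose_sub, Matrix.transpose_mul, Matrix.transpose_mul, h1, hZ'.1 i, mul_neg,
    neg_mul]
  abel

/-! ### the compact group -/

/-- the group of all orthogonal elements of `G` -/
private def bdgK (G : Subgroup (Alg N)ˣ) : Subgroup (Alg N)ˣ where
  carrier := {k | k ∈ G ∧ Orth k}
  one_mem' := ⟨G.one_mem, orth_one⟩
  mul_mem' := fun {_ _} ha hb => ⟨G.mul_mem ha.1 hb.1, orth_mul ha.2 hb.2⟩
  inv_mem' := fun {_} ha => ⟨G.inv_mem ha.1, orth_inv ha.2⟩

private theorem bdg_mem (hG : SelfAdj G) (k : bdgK G) (x : pS G) : cA k.1 x.1 ∈ pS G :=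
  (mem_pS hG.closed).2 (pp_cA k.2.1 k.2.2 ((mem_pS hG.closed).1 x.2))

/-- the action on `𝔭(G)` -/
private def bdgA (hG : SelfAdj G) (k : bdgK G) : pS G →ₗ[ℝ] pS G where
  toFun x := ⟨cA k.1 x.1, bdg_mem hG k x⟩
  map_add' x y := Subtype.ext (cA_add k.1 x.1 y.1)
  map_smul' c x := Subtype.ext (cA_smul k.1 c x.1)

variable {E : Type} [NormedAddCommGroup E] [NormedSpace ℝ E] [FiniteDimensional ℝ E]

/-- the action on `E` -/
private def bdgF (hG : SelfAdj G) (φ : pS G ≃ₗ[ℝ] E) : bdgK G →* (E →L[ℝ] E) where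
  toFun k := LinearMap.toContinuousLinearMap
    (φ.toLinearMap ∘ₗ (bdgA hG k) ∘ₗ φ.symm.toLinearMap)
  map_one' := by
    refine ContinuousLinearMap.ext fun x => ?_
    show φ ⟨cA 1 (φ.symm x).1, _⟩ = x
    have h1 : (⟨cA 1 (φ.symm x).1, bdg_mem hG 1 (φ.symm x)⟩ : pS G) = φ.symm x :=
      Subtype.ext (cA_one _)
    exact (congrArg φ h1).trans (φ.apply_symm_apply x)
  map_mul' a b := by
    refine ContinuousLinearMap.ext fun x => ?_
    show φ (bdgA hG (a * b) (φ.symm x)) =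
      φ (bdgA hG a (φ.symm (φ (bdgA hG b (φ.symm x)))))
    rw [LinearEquiv.symm_apply_apply]
    congr 1
    exact Subtype.ext (cA_mul a.1 b.1 _)

private theorem bdgF_apply (hG : SelfAdj G) (φ : pS G ≃ₗ[ℝ] E) (k : bdgK G) (x : E) :
    ((φ.symm (bdgF hG φ k x) : pS G) : Alg N) = cA k.1 (φ.symm x).1 := by
  show (φ.symm (φ (bdgA hG k (φ.symm x)))).1 = _
  rw [LinearEquiv.symm_apply_apply]
  rfl

private theorem bdgF_cont (hG : SelfAdj G) (φ : pS G ≃ₗ[ℝ] E) : Continuous (bdgF hG φ) := by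
  rw [continuous_clm_apply]
  intro x
  show Continuous fun k : bdgK G => φ (bdgA hG k (φ.symm x))
  have h1 : Continuous φ := φ.toLinearMap.continuous_of_finiteDimensional
  refine h1.comp ?_
  refine Continuous.subtype_mk ?_ _
  have h2 : Continuous fun k : bdgK G => (k.1).1 :=
    Units.continuous_val.comp continuous_subtype_val
  have h3 : Continuous fun k : bdgK G => ((k.1)⁻¹).1 :=
    Units.continuous_val.comp (continuous_inv.comp continuous_subtype_val)
  exact (h2.mul continuous_const).mul h3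

/-- the homomorphism to `GL(E)` -/
private def bdgR (hG : SelfAdj G) (φ : pS G ≃ₗ[ℝ] E) : bdgK G →* LTS.GLE E :=
  (bdgF hG φ).toHomUnits

private theorem bdgR_val (hG : SelfAdj G) (φ : pS G ≃ₗ[ℝ] E) (k : bdgK G) :
    (bdgR hG φ k).1 = bdgF hG φ k := rfl

private theorem bdgR_cont (hG : SelfAdj G) (φ : pS G ≃ₗ[ℝ] E) : Continuous (bdgR hG φ) := by
  rw [Units.continuous_iff]
  refine ⟨bdgF_cont hG φ, ?_⟩
  show Continuous fun k : bdgK G => (bdgF hG φ) k⁻¹
  exact (bdgF_cont hG φ).comp continuous_inv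

private theorem bdg_orth_exp {A : Alg N} (h : ∀ i, (A i)ᵀ = -(A i)) : Orth (eu A) := by
  intro i
  show (exp (A i))ᵀ * exp (A i) = 1
  rw [← Matrix.exp_transpose, h i, ← Matrix.exp_add_of_commute _ _
    (Commute.refl (A i)).neg_left, neg_add_cancel, exp_zero]

private theorem bdg_grp (hG : SelfAdj G) (hK : Kconn G) (φ : pS G ≃ₗ[ℝ] E) :
    (bdgS (bdg_trp hG) φ).Grp (bdgR hG φ).range := by
  have hset : ((bdgR hG φ).range : Set (LTS.GLE E)) = Set.range (bdgR hG φ) :=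
    MonoidHom.coe_range _
  have hcpt : IsCompact {k : (Alg N)ˣ | k ∈ G ∧ Orth k} :=
    isCompact_orth.inter_left hG.closed
  have hcs : CompactSpace (bdgK G) := isCompact_iff_compactSpace.1 hcpt
  have hcn : PreconnectedSpace (bdgK G) := Subtype.preconnectedSpace hK
  have hK1 : IsCompact ((bdgR hG φ).range : Set (LTS.GLE E)) := by
    rw [hset]
    exact isCompact_range (bdgR_cont hG φ)
  refine ⟨hK1, ?_, ?_, ?_⟩
  · rw [hset]
    exact isPreconnected_range (bdgR_cont hG φ)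
  · refine Subgroup.topologicalClosure_minimal _ ?_ hK1.isClosed
    rw [Subgroup.closure_le]
    rintro _ ⟨x, y, rfl⟩
    obtain ⟨X, hX⟩ : ∃ X, X = (φ.symm x).1 := ⟨_, rfl⟩
    obtain ⟨Y, hY⟩ : ∃ Y, Y = (φ.symm y).1 := ⟨_, rfl⟩
    have hX' := (mem_pS hG.closed).1 (φ.symm x).2
    have hY' := (mem_pS hG.closed).1 (φ.symm y).2
    have hl : br (φ.symm x).1 (φ.symm y).1 ∈ lie G := lie_br hG.closed hX'.2 hY'.2
    have hm : eu (br (φ.symm x).1 (φ.symm y).1) ∈ bdgK G := by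
      refine ⟨?_, bdg_orth_exp (bdg_br_sym hX'.1 hY'.1)⟩
      have h1 := hl 1
      rwa [one_smul] at h1
    refine ⟨⟨_, hm⟩, Units.ext (ContinuousLinearMap.ext fun z => ?_)⟩
    rw [bdgR_val]
    apply φ.symm.injective
    refine Subtype.ext ?_
    rw [bdgF_apply]
    funext i
    have h2 := bdg_mat (A := (br (φ.symm x).1 (φ.symm y).1) i)
      (D := (bdgS (bdg_trp hG) φ).D x y)
      (f := (LinearMap.proj i : Alg N →ₗ[ℝ] Matrix (Fin (N i)) (Fin (N i)) ℝ) ∘ₗ
        (pS G).subtype ∘ₗ φ.symm.toLinearMap) ?_ z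
    · exact h2.symm
    · intro w
      have h3 := congrFun (bdgS_T (bdg_trp hG) φ x y w) i
      exact h3
  · rintro _ ⟨k, rfl⟩
    refine ⟨fun x y z => ?_, fun x y => ?_⟩
    · apply φ.symm.injective
      refine Subtype.ext ?_
      rw [bdgR_val, bdgF_apply, bdgS_T, bdgS_T, bdgF_apply, bdgF_apply, bdgF_apply, bdg_cA_br,
        bdg_cA_br]
    · rw [bdgS_ip, bdgS_ip, bdgR_val, bdgF_apply, bdgF_apply, ip_cA]

/-- the data of the bridge -/
structure Bdg (G : Subgroup (Alg N)ˣ) where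
  /-- the space -/
  E : Type
  [i1 : NormedAddCommGroup E]
  [i2 : NormedSpace ℝ E]
  [i3 : FiniteDimensional ℝ E]
  /-- the structure -/
  S : LTS E
  /-- the group -/
  K : Subgroup (LTS.GLE E)
  /-- the isomorphism with `𝔭(G)` -/
  φ : pS G ≃ₗ[ℝ] E
  grp : S.Grp K
  T_eq : ∀ x y z : pS G, ((φ.symm (S.T (φ x) (φ y) (φ z)) : pS G) : Alg N) = br (br x.1 y.1) z.1
  ip_eq : ∀ x y : pS G, S.ip (φ x) (φ y) = ip x.1 y.1
  act : ∀ k ∈ G, Orth k → ∃ u ∈ K, ∀ x : pS G, ((φ.symm (u.1 (φ x)) : pS G) : Alg N) = cA k x.1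
  act' : ∀ u ∈ K, ∃ k ∈ G, Orth k ∧ ∀ x : pS G, ((φ.symm (u.1 (φ x)) : pS G) : Alg N) = cA k x.1

theorem bridge (hG : SelfAdj G) (hK : Kconn G) : Nonempty (Bdg G) := by
  have hfd : FiniteDimensional ℝ (pS G) := inferInstance
  obtain ⟨φ⟩ : Nonempty (pS G ≃ₗ[ℝ] (Fin (Module.finrank ℝ (pS G)) → ℝ)) :=
    ⟨(Module.finBasis ℝ (pS G)).equivFun⟩
  refine ⟨{ E := Fin (Module.finrank ℝ (pS G)) → ℝ
            S := bdgS (bdg_trp hG) φ
            K := (bdgR hG φ).range
            φ := φ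
            grp := bdg_grp hG hK φ
            T_eq := fun x y z => ?_
            ip_eq := fun x y => ?_
            act := fun k hk ho => ?_
            act' := fun u hu => ?_ }⟩
  · rw [bdgS_T]
    simp only [LinearEquiv.symm_apply_apply]
  · rw [bdgS_ip]
    simp only [LinearEquiv.symm_apply_apply]
  · refine ⟨bdgR hG φ ⟨k, hk, ho⟩, ⟨_, rfl⟩, fun x => ?_⟩
    rw [bdgR_val, bdgF_apply, LinearEquiv.symm_apply_apply]
  · obtain ⟨k, rfl⟩ := hu
    refine ⟨k.1, k.2.1, k.2.2, fun x => ?_⟩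
    rw [bdgR_val, bdgF_apply, LinearEquiv.symm_apply_apply]

end Pool.Agent.MP_417c68_gt
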