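import Pool.Agent.Lib.MP_417c68_gt_P.I.AdInv

/-!
# MP_417c68_gt, project P, module I/DetArg: the determinant argument

PROOFS.
* `perfect`: let `x ∈ V` be orthogonal (for `ip`) to all `[[X, Y], Z]`.  For `y ∈ V`:
  `0 = ip x [[x, y], y] = -ip [x, y] [x, y]`, a sum of squares of the skew matrices `[x, y]`, so
  `[x, y] = 0`; then `x` commutes with `V`, `x = 0`.  So the span of the `[[X, Y], Z]` is all of `V`
  (orthogonal complement in the finite dimensional space `V`, `ip` is positive definite on symmetric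
  elements).
* `det_arg`.  Fix a block `i` and an eigenvalue `μ` of `c i`; `q` = the orthogonal projection onto
  the
  eigenspace (`c i = u D u⁻¹`, `q = u diag(1 if l j = μ else 0) u⁻¹`).  `q² = q`, `q ≠ 0`, `q`
  commutes with every
  matrix which commutes with `c i`, in particular with `X i` for `X ∈ V`.
  `δ(g) = det (q * g + (1 - q))` is multiplicative on the matrices commuting with `q`.  For `X`
  commuting
  with `q`: `q * exp X + (1 - q) = exp (q * X)`, so `δ(exp X) = exp (tr (q X))` (`Matrix.det_exp`).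
   For
  `X = [[A, B], C]` with `A, B, C ∈ V`: `tr (q [[A, B], C]) = tr ([q, [A, B]] C) = 0`, so `δ(exp X)
  = 1` for
  all `X ∈ V` (`hp`).  Hence `δ(exp (c i)) = 1`, i.e. `exp (μ tr q) = 1`, `tr q > 0`, so `μ = 0`. 
  All
  eigenvalues vanish, so `c i = 0`.
-/

noncomputable section

namespace Pool.Agent.MP_417c68_gt

open Matrix NormedSpace

variable {n : ℕ} {N : Fin n → ℕ} {V : Submodule ℝ (Alg N)}

private def detArg_ip (Y : Alg N) : Alg N →ₗ[ℝ] ℝ where
  toFun X := ip X Y
  map_add' A B := ip_add_left A B Y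
  map_smul' c A := ip_smul_left c A Y

private theorem detArg_rep (P : Submodule ℝ (Alg N)) (hP : ∀ X ∈ P, ∀ i, (X i)ᵀ = X i)
    (Z : Alg N) : ∃ z ∈ P, ∀ X ∈ P, ip X Z = ip X z := by
  let T : P →ₗ[ℝ] Module.Dual ℝ P :=
    { toFun := fun Y => (detArg_ip Y.1).comp P.subtype
      map_add' := fun A B => by
        ext X
        change ip X.1 (A.1 + B.1) = ip X.1 A.1 + ip X.1 B.1
        rw [ip_comm, ip_add_left, ip_comm A.1, ip_comm B.1]
      map_smul' := fun c A => by
        ext X
        change ip X.1 (c • A.1) = c * ip X.1 A.1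
        rw [ip_comm, ip_smul_left, ip_comm A.1] }
  have hT : ∀ (Y X : P), T Y X = ip X.1 Y.1 := fun Y X => rfl
  have hinj : Function.Injective T := by
    rw [← LinearMap.ker_eq_bot, LinearMap.ker_eq_bot']
    intro Y hY
    have h1 : T Y Y = 0 := by rw [hY]; rfl
    rw [hT] at h1
    exact Subtype.ext (ip_self_zero (hP _ Y.2) h1)
  have hsurj : Function.Surjective T :=
    (LinearMap.injective_iff_surjective_of_finrank_eq_finrank
      (Subspace.dual_finrank_eq (K := ℝ) (V := P)).symm).1 hinj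
  obtain ⟨z, hz⟩ := hsurj ((detArg_ip Z).comp P.subtype)
  refine ⟨z, z.2, fun X hX => ?_⟩
  have h2 := LinearMap.congr_fun hz ⟨X, hX⟩
  rw [hT] at h2
  exact h2.symm

private theorem detArg_tr {m : ℕ} (A x y : Matrix (Fin m) (Fin m) ℝ)
    (hA : A = x * y - y * x) : ((A * y - y * A) * x).trace = -(A * A).trace := by
  have h1 : (y * A * x).trace = (A * (x * y)).trace := by
    rw [Matrix.mul_assoc, Matrix.trace_mul_comm, Matrix.mul_assoc]
  have h2 : (A * A).trace = (A * (x * y)).trace - (A * (y * x)).trace := by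
    nth_rewrite 2 [hA]
    rw [Matrix.mul_sub, Matrix.trace_sub]
  rw [Matrix.sub_mul, Matrix.trace_sub, h1, h2, Matrix.mul_assoc]
  ring

private theorem detArg_skew {m : ℕ} {A : Matrix (Fin m) (Fin m) ℝ} (hA : Aᵀ = -A) :
    0 ≤ -(A * A).trace ∧ (-(A * A).trace = 0 → A = 0) := by
  have h1 : -(A * A).trace = (Aᴴ * A).trace := by
    rw [Matrix.conjTranspose_eq_transpose_of_trivial, hA, Matrix.neg_mul, Matrix.trace_neg]
  refine ⟨?_, fun h => ?_⟩
  · rw [h1, Matrix.conjTranspose_eq_transpose_of_trivial]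
    simp only [Matrix.trace, Matrix.diag_apply, Matrix.mul_apply, Matrix.transpose_apply]
    exact Finset.sum_nonneg fun i _ => Finset.sum_nonneg fun j _ => mul_self_nonneg _
  · rw [h1] at h
    exact Matrix.trace_conjTranspose_mul_self_eq_zero_iff.1 h

theorem perfect (hV : Trp V) (hc : ∀ X ∈ V, (∀ Y ∈ V, X * Y = Y * X) → X = 0) :
    V ≤ Submodule.span ℝ {A | ∃ X ∈ V, ∃ Y ∈ V, ∃ Z ∈ V, A = br (br X Y) Z} := by
  set W := Submodule.span ℝ {A | ∃ X ∈ V, ∃ Y ∈ V, ∃ Z ∈ V, A = br (br X Y) Z} with hW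
  have hWV : W ≤ V := by
    rw [hW, Submodule.span_le]
    rintro A ⟨X, hX, Y, hY, Z, hZ, rfl⟩
    exact hV.tri X hX Y hY Z hZ
  intro v hv
  obtain ⟨z, hz, hzr⟩ := detArg_rep W (fun X hX => hV.sym X (hWV hX)) v
  have hx : v - z ∈ V := V.sub_mem hv (hWV hz)
  have horth : ∀ X ∈ W, ip X (v - z) = 0 := by
    intro X hX
    rw [ip_comm, ip_sub_left, ip_comm v, ip_comm z, hzr X hX, sub_self]
  have h0 : v - z = 0 := by
    refine hc _ hx fun y hy => ?_
    set x := v - z with hxd
    have h1 := horth (br (br x y) y) (Submodule.subset_span ⟨x, hx, y, hy, y, hy, rfl⟩)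
    have hsk : ∀ i, (br x y i)ᵀ = -(br x y i) := by
      intro i
      change (x i * y i - y i * x i)ᵀ = -(x i * y i - y i * x i)
      rw [Matrix.transpose_sub, Matrix.transpose_mul, Matrix.transpose_mul, hV.sym x hx,
        hV.sym y hy, neg_sub]
    have h2 : ip (br (br x y) y) x = ∑ i, -(br x y i * br x y i).trace :=
      Finset.sum_congr rfl fun i _ => detArg_tr (br x y i) (x i) (y i) rfl
    rw [h2] at h1
    have h3 := (Finset.sum_eq_zero_iff_of_nonneg
      fun i _ => (detArg_skew (hsk i)).1).1 h1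
    funext i
    have h4 := (detArg_skew (hsk i)).2 (h3 i (Finset.mem_univ i))
    exact sub_eq_zero.1 h4
  rw [sub_eq_zero.1 h0]
  exact hz

section

open scoped Matrix.Norms.Operator

private theorem detArg_exp {m : ℕ} {q X : Matrix (Fin m) (Fin m) ℝ} (hq : q * q = q)
    (hc : Commute q X) : exp (q * X) = q * exp X + (1 - q) := by
  have h1 := (exp_series_hasSum_exp' (𝕂 := ℝ) X).mul_left q
  have h2 : HasSum (fun k : ℕ => if k = 0 then (1 - q : Matrix (Fin m) (Fin m) ℝ) else 0)
      (1 - q) := hasSum_ite_eq 0 (1 - q)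
  have h3 := exp_series_hasSum_exp' (𝕂 := ℝ) (q * X)
  refine h3.unique ?_
  have h4 := h1.add h2
  refine h4.congr_fun ?_
  intro k
  rcases Nat.eq_zero_or_pos k with rfl | hk
  · simp
  · rw [if_neg hk.ne', add_zero, hc.mul_pow, mul_smul_comm]
    have h5 : q ^ k = q := by
      obtain ⟨j, rfl⟩ := Nat.exists_eq_succ_of_ne_zero hk.ne'
      exact IsIdempotentElem.pow_succ_eq j hq
    rw [h5]

end

private theorem detArg_det {m : ℕ} {A : Matrix (Fin m) (Fin m) ℝ} (hA : Aᵀ = A) :
    (exp A).det = Real.exp A.trace := by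
  have hH : A.IsHermitian := by
    rw [Matrix.IsHermitian, conjTranspose_eq_transpose_of_trivial, hA]
  obtain ⟨u, l, h⟩ : ∃ (u : (Matrix (Fin m) (Fin m) ℝ)ˣ) (l : Fin m → ℝ),
      A = u.1 * diagonal l * (u⁻¹).1 :=
    ⟨Unitary.toUnits hH.eigenvectorUnitary, hH.eigenvalues, hH.spectral_theorem⟩
  rw [h, Matrix.exp_units_conj, Matrix.exp_diagonal, Matrix.det_units_conj, Matrix.det_diagonal,
    Matrix.trace_units_conj, Matrix.trace_diagonal, Real.exp_sum]
  refine Finset.prod_congr rfl fun j _ => ?_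
  rw [Pi.coe_exp, Real.exp_eq_exp_ℝ]

/-- the spectral projections -/
private theorem detArg_proj {m : ℕ} {c : Matrix (Fin m) (Fin m) ℝ} (hc : cᵀ = c) (h0 : c ≠ 0) :
    ∃ (q : Matrix (Fin m) (Fin m) ℝ) (μ : ℝ), qᵀ = q ∧ q * q = q ∧ μ ≠ 0 ∧ q * c = μ • q ∧
      0 < q.trace ∧ ∀ X, c * X = X * c → Commute q X := by
  have hH : c.IsHermitian := by
    rw [Matrix.IsHermitian, conjTranspose_eq_transpose_of_trivial, hc]
  obtain ⟨u, v, l, huv, hvu, hvt, h⟩ : ∃ (u v : Matrix (Fin m) (Fin m) ℝ) (l : Fin m → ℝ),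
      u * v = 1 ∧ v * u = 1 ∧ uᵀ = v ∧ c = u * diagonal l * v := by
    refine ⟨hH.eigenvectorUnitary, star (hH.eigenvectorUnitary : Matrix (Fin m) (Fin m) ℝ),
      hH.eigenvalues, ?_, ?_, ?_, ?_⟩
    · exact (Unitary.mem_iff.1 hH.eigenvectorUnitary.2).2
    · exact (Unitary.mem_iff.1 hH.eigenvectorUnitary.2).1
    · rw [Matrix.star_eq_conjTranspose, conjTranspose_eq_transpose_of_trivial]
    · exact hH.spectral_theorem
  obtain ⟨j0, hj0⟩ : ∃ j, l j ≠ 0 := by
    by_contra hcon
    push Not at hcon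
    apply h0
    have hl : l = fun _ => 0 := funext hcon
    rw [h, hl, diagonal_zero, Matrix.mul_zero, Matrix.zero_mul]
  let e : Fin m → ℝ := fun j => if l j = l j0 then 1 else 0
  have hvT : vᵀ = u := by rw [← hvt, Matrix.transpose_transpose]
  have hmul : ∀ A B : Matrix (Fin m) (Fin m) ℝ, u * A * v * (u * B * v) = u * (A * B) * v := by
    intro A B
    calc u * A * v * (u * B * v) = u * A * (v * u) * B * v := by simp only [Matrix.mul_assoc]
      _ = _ := by rw [hvu, Matrix.mul_one, Matrix.mul_assoc u]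
  refine ⟨u * diagonal e * v, l j0, ?_, ?_, hj0, ?_, ?_, ?_⟩
  · rw [Matrix.transpose_mul, Matrix.transpose_mul, hvt, hvT, diagonal_transpose,
      Matrix.mul_assoc]
  · rw [hmul, diagonal_mul_diagonal]
    congr 3
    funext j
    simp only [e]
    split_ifs <;> simp
  · rw [h, hmul, diagonal_mul_diagonal, ← Matrix.smul_mul, ← Matrix.mul_smul, ← diagonal_smul]
    congr 3
    funext j
    simp only [e, Pi.smul_apply, smul_eq_mul]
    split_ifs with hj
    · rw [hj]; ring
    · ring
  · rw [Matrix.trace_mul_comm, ← Matrix.mul_assoc, hvu, Matrix.one_mul, trace_diagonal]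
    refine Finset.sum_pos' (fun j _ => ?_) ⟨j0, Finset.mem_univ j0, ?_⟩
    · simp only [e]
      split_ifs <;> norm_num
    · simp [e]
  · intro X hX
    have hY : diagonal l * (v * X * u) = (v * X * u) * diagonal l := by
      have h1 : v * (c * X) * u = v * (X * c) * u := by rw [hX]
      rw [h] at h1
      have h2 : v * (u * diagonal l * v * X) * u = diagonal l * (v * X * u) := by
        calc v * (u * diagonal l * v * X) * u = (v * u) * diagonal l * (v * X * u) := by
              simp only [Matrix.mul_assoc]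
          _ = _ := by rw [hvu, Matrix.one_mul]
      have h3 : v * (X * (u * diagonal l * v)) * u = v * X * u * diagonal l := by
        calc v * (X * (u * diagonal l * v)) * u = v * X * u * diagonal l * (v * u) := by
              simp only [Matrix.mul_assoc]
          _ = _ := by rw [hvu, Matrix.mul_one]
      rw [h2, h3] at h1
      exact h1
    have hE : diagonal e * (v * X * u) = (v * X * u) * diagonal e := by
      ext a b
      have h4 := congrFun (congrFun hY a) b
      rw [diagonal_mul, mul_diagonal] at h4 ⊢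
      by_cases hz : (v * X * u) a b = 0
      · rw [hz, mul_zero, zero_mul]
      · have h5 : l a = l b := by
          rw [mul_comm ((v * X * u) a b)] at h4
          exact mul_right_cancel₀ hz h4
        simp only [e]
        rw [h5, mul_comm]
    have hX2 : X = u * (v * X * u) * v := by
      calc X = (u * v) * X * (u * v) := by rw [huv, Matrix.one_mul, Matrix.mul_one]
        _ = _ := by simp only [Matrix.mul_assoc]
    change u * diagonal e * v * X = X * (u * diagonal e * v)
    rw [hX2, hmul, hmul, hE]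

private theorem detArg_mul {m : ℕ} {q A B : Matrix (Fin m) (Fin m) ℝ} (hq : q * q = q)
    (hA : Commute q A) : (q * (A * B) + (1 - q)) = (q * A + (1 - q)) * (q * B + (1 - q)) := by
  have h1 : q * A * (q * B) = q * (A * B) := by
    rw [hA.eq, Matrix.mul_assoc, ← Matrix.mul_assoc q q B, hq, ← Matrix.mul_assoc, ← hA.eq,
      Matrix.mul_assoc]
  have h2 : q * A * (1 - q) = 0 := by
    rw [Matrix.mul_sub, Matrix.mul_one, hA.eq, Matrix.mul_assoc, hq, sub_self]
  have h3 : (1 - q) * (q * B) = 0 := by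
    rw [Matrix.sub_mul, Matrix.one_mul, ← Matrix.mul_assoc, hq, sub_self]
  have h4 : (1 - q) * (1 - q) = 1 - q := by
    rw [Matrix.mul_sub, Matrix.mul_one, Matrix.sub_mul, Matrix.one_mul, hq, sub_self, sub_zero]
  rw [Matrix.add_mul, Matrix.mul_add, Matrix.mul_add, h1, h2, h3, h4, add_zero, zero_add]

theorem det_arg (hV : Trp V)
    (hp : V ≤ Submodule.span ℝ {A | ∃ X ∈ V, ∃ Y ∈ V, ∃ Z ∈ V, A = br (br X Y) Z}) {c : Alg N}
    (hc : ∀ i, (c i)ᵀ = c i) (hcom : ∀ X ∈ V, c * X = X * c) {l : List (Alg N)}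
    (hl : ∀ X ∈ l, X ∈ V) (h : eu c = (l.map eu).prod) : c = 0 := by
  by_contra hne
  obtain ⟨i, hi⟩ : ∃ i, c i ≠ 0 := by
    by_contra hcon
    push Not at hcon
    exact hne (funext hcon)
  obtain ⟨q, μ, hqt, hqq, hμ, hqc, htr, hcm⟩ := detArg_proj (hc i) hi
  have hqX : ∀ X ∈ V, Commute q (X i) := fun X hX => hcm _ (congrFun (hcom X hX) i)
  have hdet : ∀ X : Matrix (Fin (N i)) (Fin (N i)) ℝ, Xᵀ = X → Commute q X →
      (q * exp X + (1 - q)).det = Real.exp (q * X).trace := by
    intro X hX hX2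
    rw [← detArg_exp hqq hX2, detArg_det]
    rw [Matrix.transpose_mul, hX, hqt, hX2.eq]
  have htr0 : ∀ X ∈ V, (q * X i).trace = 0 := by
    intro X hX
    have hX' := hp hX
    let F : Alg N →ₗ[ℝ] ℝ := (Matrix.traceLinearMap (Fin (N i)) ℝ ℝ).comp
      ((LinearMap.mulLeft ℝ q).comp (LinearMap.proj i))
    have hF : ∀ Y, F Y = (q * Y i).trace := fun Y => rfl
    have hle : Submodule.span ℝ {A | ∃ X ∈ V, ∃ Y ∈ V, ∃ Z ∈ V, A = br (br X Y) Z} ≤
        LinearMap.ker F := by
      rw [Submodule.span_le]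
      rintro A ⟨X, hX, Y, hY, Z, hZ, rfl⟩
      rw [SetLike.mem_coe, LinearMap.mem_ker, hF]
      have hK : Commute q (br X Y i) :=
        ((hqX X hX).mul_right (hqX Y hY)).sub_right ((hqX Y hY).mul_right (hqX X hX))
      change (q * (br X Y i * Z i - Z i * br X Y i)).trace = 0
      rw [Matrix.mul_sub, Matrix.trace_sub, ← Matrix.mul_assoc q (Z i),
        Matrix.trace_mul_comm (q * Z i), ← Matrix.mul_assoc (br X Y i), ← hK.eq,
        Matrix.mul_assoc, sub_self]
    have h1 := hle hX'
    rw [LinearMap.mem_ker, hF] at h1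
    exact h1
  have hlist : ∀ l : List (Alg N), (∀ X ∈ l, X ∈ V) →
      Commute q ((l.map eu).prod.1 i) ∧ (q * (l.map eu).prod.1 i + (1 - q)).det = 1 := by
    intro l
    induction l with
    | nil =>
      intro _
      have h1 : (([] : List (Alg N)).map eu).prod.1 i = 1 := rfl
      rw [h1]
      refine ⟨Commute.one_right q, ?_⟩
      rw [Matrix.mul_one, add_sub_cancel, Matrix.det_one]
    | cons X l ih =>
      intro hl
      obtain ⟨ih1, ih2⟩ := ih fun Y hY => hl Y (List.mem_cons_of_mem _ hY)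
      have hXV : X ∈ V := hl X List.mem_cons_self
      have h1 : ((X :: l).map eu).prod.1 i = exp (X i) * (l.map eu).prod.1 i := by
        rw [List.map_cons, List.prod_cons]
        rfl
      have h2 : Commute q (exp (X i)) := (hqX X hXV).exp_right
      rw [h1]
      refine ⟨h2.mul_right ih1, ?_⟩
      rw [detArg_mul hqq h2, Matrix.det_mul, ih2, mul_one,
        hdet _ (hV.sym X hXV i) (hqX X hXV), htr0 X hXV, Real.exp_zero]
  have h1 := (hlist l hl).2
  rw [← h] at h1
  have h2 : (eu c).1 i = exp (c i) := rfl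
  rw [h2, hdet _ (hc i) (hcm _ rfl), hqc, Matrix.trace_smul, smul_eq_mul, Real.exp_eq_one_iff] at h1
  rcases mul_eq_zero.1 h1 with h3 | h3
  · exact hμ h3
  · exact htr.ne' h3

end Pool.Agent.MP_417c68_gt
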