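import Pool.Agent.Lib.MP_417c68_gt_P.I.AdInv

/-!
# MP_417c68_gt, project P, module I/Fix: a connected `K` fixes the centre of `𝔭(G)`

PROOF of `fix_centre`.  `K = {k ∈ G : Orth k}` is compact and connected, `K' = {k ∈ K : cA k c =
  c}` is a
closed subgroup; we show that `K'` is open in `K`.  Otherwise there are `k_j ∈ K`, `k_j ∉ K'`, `k_j
  → 1`.
Replace `k_j` by `k_j k'` with `k' ∈ K'` such that `‖k_j k' - 1‖` (Frobenius norm, sum over the
  blocks) is
minimal (`K'` is compact): still `k_j ∉ K'` and `k_j → 1`.  `h_j = k_j - 1 ≠ 0`, `h_j / ‖h_j‖ → X`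
  (subsequence),
`‖X‖ = 1`.
* `X` is skew: `(1 + h)ᵀ (1 + h) = 1`.  `X ∈ lie G`: for `t ∈ ℝ` `k_j ^ ⌊t / ‖h_j‖⌋ → exp (t X)`
  (compare `trotter` and `pow_sub_pow_le` in `MP_417c68_gt/Lie.lean`: `k_j = exp (h_j) + O(‖h_j‖ ^
  2)`).
* `br X c = 0`: it is in `pp G` (`lie_br`, symmetric) and for `Y ∈ pp G` `ip (br X c) Y = ip X (br
  c Y) = 0`; take
  `Y = br X c`.  So `eu (t • X) ∈ K'` for all `t` (`Orth` since `X` is skew).
* minimality: `t ↦ ‖k_j eu (t • X) - 1‖ ^ 2 = 2 tr 1 - 2 tr (k_j exp (t X))` is minimal at `t = 0`,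
  so
  `tr (k_j X) = 0`; `tr X = 0` (skew), so `tr (h_j X) = 0`; in the limit `tr (X X) = 0`, `X = 0`
  (skew), contradiction.
-/

noncomputable section

namespace Pool.Agent.MP_417c68_gt

open Matrix NormedSpace

section fixgen

open Filter Topology Asymptotics

variable {𝔸 : Type*} [NormedRing 𝔸] [NormedAlgebra ℝ 𝔸] [CompleteSpace 𝔸]

omit [CompleteSpace 𝔸] in
private theorem fix_norm_exp_le [NormOneClass 𝔸] (x : 𝔸) : ‖exp x‖ ≤ Real.exp ‖x‖ := by
  have h : Summable (fun n : ℕ => ‖((n.factorial : ℝ)⁻¹) • x ^ n‖) :=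
    norm_expSeries_summable' (𝕂 := ℝ) x
  have h2 : Summable (fun n : ℕ => ((n.factorial : ℝ)⁻¹) • ‖x‖ ^ n) :=
    expSeries_summable' (𝕂 := ℝ) (‖x‖ : ℝ)
  rw [exp_eq_tsum ℝ, Real.exp_eq_exp_ℝ, exp_eq_tsum ℝ]
  refine (norm_tsum_le_tsum_norm h).trans (Summable.tsum_le_tsum (fun n => ?_) h h2)
  rw [norm_smul, smul_eq_mul]
  refine mul_le_mul ?_ (norm_pow_le x n) (norm_nonneg _) (by positivity)
  rw [Real.norm_eq_abs, abs_of_nonneg (by positivity)]

omit [NormedAlgebra ℝ 𝔸] [CompleteSpace 𝔸] in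
private theorem fix_pow_sub_pow_le [NormOneClass 𝔸] {A B : 𝔸} {K : ℝ} (hK : 1 ≤ K)
    (hA : ‖A‖ ≤ K) (hB : ‖B‖ ≤ K) (m : ℕ) : ‖A ^ m - B ^ m‖ ≤ m * K ^ m * ‖A - B‖ := by
  induction m with
  | zero => simp
  | succ m ih =>
    have e : A ^ (m + 1) - B ^ (m + 1) = A * (A ^ m - B ^ m) + (A - B) * B ^ m := by
      rw [pow_succ' A, pow_succ' B]
      noncomm_ring
    rw [e]
    have h0 : 0 ≤ ‖A - B‖ := norm_nonneg _
    have h1 : ‖A * (A ^ m - B ^ m)‖ ≤ K * (m * K ^ m * ‖A - B‖) :=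
      (norm_mul_le _ _).trans (mul_le_mul hA ih (norm_nonneg _) (by linarith))
    have h2 : ‖(A - B) * B ^ m‖ ≤ ‖A - B‖ * K ^ m := by
      refine (norm_mul_le _ _).trans (mul_le_mul_of_nonneg_left ?_ h0)
      exact (norm_pow_le B m).trans (pow_le_pow_left₀ (norm_nonneg _) hB m)
    have h3 : ‖A - B‖ * K ^ m ≤ K * K ^ m * ‖A - B‖ := by
      have : 0 ≤ ‖A - B‖ * K ^ m := by positivity
      nlinarith
    refine (norm_add_le _ _).trans ((add_le_add h1 h2).trans ?_)
    push_cast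
    rw [pow_succ']
    nlinarith

private theorem fix_pow_lim [NormOneClass 𝔸] {h : ℕ → 𝔸} {r : ℕ → ℝ} {m : ℕ → ℕ} {t : ℝ}
    {X : 𝔸} (hr : ∀ j, 0 < r j) (h0 : Tendsto r atTop (𝓝 0))
    (hm : Tendsto (fun j => (m j : ℝ) * r j) atTop (𝓝 t))
    (hX : Tendsto (fun j => (r j)⁻¹ • h j) atTop (𝓝 X)) :
    Tendsto (fun j => (1 + h j) ^ m j) atTop (𝓝 (exp (t • X))) := by
  have e1 : ∀ j, r j • ((r j)⁻¹ • h j) = h j := fun j => by
    rw [smul_smul, mul_inv_cancel₀ (hr j).ne', one_smul]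
  have hh : Tendsto h atTop (𝓝 0) := by
    have h1 := h0.smul hX
    rw [zero_smul] at h1
    exact h1.congr e1
  have hmh : Tendsto (fun j => (m j : ℝ) • h j) atTop (𝓝 (t • X)) := by
    refine (hm.smul hX).congr fun j => ?_
    rw [smul_smul, mul_assoc, mul_inv_cancel₀ (hr j).ne', mul_one]
  have hmn : Tendsto (fun j => (m j : ℝ) * ‖h j‖) atTop (𝓝 (‖t • X‖)) := by
    refine hmh.norm.congr fun j => ?_
    rw [norm_smul, Real.norm_eq_abs, abs_of_nonneg (Nat.cast_nonneg _)]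
  have hlo : (fun x : 𝔸 => exp x - 1 - x) =o[𝓝 0] (fun x => x) := by
    have h1 := (hasFDerivAt_exp_zero (𝕂 := ℝ) (𝔸 := 𝔸)).isLittleO
    simpa using h1
  have hu : Tendsto (fun j => (m j : ℝ) * ‖exp (h j) - 1 - h j‖) atTop (𝓝 0) := by
    have h1 := (hlo.comp_tendsto hh).norm_norm
    have h2 := (isBigO_refl (fun j => (m j : ℝ)) atTop).mul_isLittleO h1
    exact h2.tendsto_zero_of_tendsto hmn
  have hK := ((Real.continuous_exp.tendsto _).comp hmn).mul hu
  rw [mul_zero] at hK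
  have hE : Tendsto (fun j => exp ((m j : ℝ) • h j)) atTop (𝓝 (exp (t • X))) := by
    let : NormedAlgebra ℚ 𝔸 := NormedAlgebra.restrictScalars ℚ ℝ 𝔸
    exact (exp_continuous.tendsto _).comp hmh
  have hD : Tendsto (fun j => (1 + h j) ^ m j - exp ((m j : ℝ) • h j)) atTop (𝓝 0) := by
    rw [tendsto_zero_iff_norm_tendsto_zero]
    refine squeeze_zero (fun j => norm_nonneg _) (fun j => ?_) hK
    have hBm : exp ((m j : ℝ) • h j) = exp (h j) ^ m j := by
      let : NormedAlgebra ℚ 𝔸 := NormedAlgebra.restrictScalars ℚ ℝ 𝔸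
      rw [← NormedSpace.exp_nsmul, Nat.cast_smul_eq_nsmul]
    have hK1 : 1 ≤ Real.exp ‖h j‖ := Real.one_le_exp (norm_nonneg _)
    have hA : ‖1 + h j‖ ≤ Real.exp ‖h j‖ := by
      refine (norm_add_le _ _).trans ?_
      rw [norm_one, add_comm]
      exact Real.add_one_le_exp _
    have h3 := fix_pow_sub_pow_le hK1 hA (fix_norm_exp_le (h j)) (m j)
    rw [hBm]
    refine h3.trans (le_of_eq ?_)
    have h4 : ‖1 + h j - exp (h j)‖ = ‖exp (h j) - 1 - h j‖ := by
      rw [← norm_neg]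
      congr 1
      abel
    rw [h4, ← Real.exp_nat_mul]
    show _ = Real.exp ((m j : ℝ) * ‖h j‖) * ((m j : ℝ) * ‖exp (h j) - 1 - h j‖)
    ring
  have h5 := hD.add hE
  rw [zero_add] at h5
  exact h5.congr fun j => by abel

end fixgen

open Filter Topology in
set_option backward.isDefEq.respectTransparency false in
private theorem fix_pow_mat {d : ℕ} {h : ℕ → Matrix (Fin d) (Fin d) ℝ} {r : ℕ → ℝ} {m : ℕ → ℕ}
    {t : ℝ} {X : Matrix (Fin d) (Fin d) ℝ} (hr : ∀ j, 0 < r j) (h0 : Tendsto r atTop (𝓝 0))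
    (hm : Tendsto (fun j => (m j : ℝ) * r j) atTop (𝓝 t))
    (hX : Tendsto (fun j => (r j)⁻¹ • h j) atTop (𝓝 X)) :
    Tendsto (fun j => (1 + h j) ^ m j) atTop (𝓝 (exp (t • X))) := by
  rcases Nat.eq_zero_or_pos d with hd | hd
  · subst hd
    refine tendsto_const_nhds.congr fun k => Subsingleton.elim _ _
  · have : Nonempty (Fin d) := ⟨⟨0, hd⟩⟩
    open scoped Norms.Operator in exact fix_pow_lim hr h0 hm hX

open Filter Topology in
set_option backward.isDefEq.respectTransparency false in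
private theorem fix_inv_mat {d : ℕ} {A B : ℕ → Matrix (Fin d) (Fin d) ℝ}
    (h1 : ∀ j, A j * B j = 1) (h2 : ∀ j, B j * A j = 1) (h : Tendsto A atTop (𝓝 1)) :
    Tendsto B atTop (𝓝 1) := by
  open scoped Norms.Operator in
  have h3 := (NormedRing.inverse_continuousAt (1 : (Matrix (Fin d) (Fin d) ℝ)ˣ)).tendsto.comp h
  rw [Units.val_one, Ring.inverse_one] at h3
  refine h3.congr fun j => ?_
  exact Ring.inverse_unit ⟨A j, B j, h1 j, h2 j⟩

open Filter Topology in
set_option backward.isDefEq.respectTransparency false in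
private theorem fix_deriv {d : ℕ} (A X : Matrix (Fin d) (Fin d) ℝ) :
    HasDerivAt (fun s : ℝ => (A * exp (s • X)).trace) ((A * X).trace) 0 := by
  open scoped Norms.Operator in
  have hX : HasDerivAt (fun s : ℝ => exp (s • X)) X 0 := by
    have := hasDerivAt_exp_smul_const (𝕂 := ℝ) X 0
    simpa using this
  have h1 : HasDerivAt (fun s : ℝ => A * exp (s • X)) (A * X) 0 := hX.const_mul A
  exact der_trace h1

variable {n : ℕ} {N : Fin n → ℕ} {G : Subgroup (Alg N)ˣ}

open Filter Topology in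
private theorem fix_units_tendsto {ι : Type*} {l : Filter ι} {u : ι → (Alg N)ˣ} {v : (Alg N)ˣ}
    (h1 : ∀ j, Tendsto (fun i => (u i).1 j) l (𝓝 (v.1 j)))
    (h2 : ∀ j, Tendsto (fun i => ((u i)⁻¹).1 j) l (𝓝 ((v⁻¹).1 j))) : Tendsto u l (𝓝 v) := by
  rw [Units.isInducing_embedProduct.tendsto_nhds_iff]
  have e1 : Tendsto (fun i => (u i).1) l (𝓝 v.1) := tendsto_pi_nhds.2 h1
  have e2 : Tendsto (fun i => ((u i)⁻¹).1) l (𝓝 (v⁻¹).1) := tendsto_pi_nhds.2 h2
  exact e1.prodMk_nhds ((MulOpposite.continuous_op.tendsto _).comp e2)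

open Filter Topology in
private theorem fix_lie_nonneg (hG : IsClosed (G : Set (Alg N)ˣ)) {k : ℕ → (Alg N)ˣ}
    (hk : ∀ j, k j ∈ G) {r : ℕ → ℝ} (hr : ∀ j, 0 < r j)
    (h0 : Tendsto r atTop (𝓝 0))
    {X : Alg N} (hX : Tendsto (fun j => (r j)⁻¹ • ((k j).1 - 1)) atTop (𝓝 X)) {t : ℝ}
    (ht : 0 ≤ t) : eu (t • X) ∈ G := by
  have hm : Tendsto (fun j => (⌊t / r j⌋₊ : ℝ) * r j) atTop (𝓝 t) := by
    have h1 : Tendsto (fun j => t - r j) atTop (𝓝 t) := by
      have := (tendsto_const_nhds (x := t)).sub h0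
      rwa [sub_zero] at this
    refine tendsto_of_tendsto_of_tendsto_of_le_of_le h1 tendsto_const_nhds (fun j => ?_)
      fun j => ?_
    · have h2 := Nat.lt_floor_add_one (t / r j)
      rw [div_lt_iff₀ (hr j)] at h2
      show t - r j ≤ (⌊t / r j⌋₊ : ℝ) * r j
      linarith
    · have h2 := Nat.floor_le (div_nonneg ht (hr j).le)
      rwa [le_div_iff₀ (hr j)] at h2
  have hXi : ∀ i, Tendsto (fun j => (r j)⁻¹ • ((k j).1 i - 1)) atTop (𝓝 (X i)) :=
    fun i => tendsto_pi_nhds.1 hX i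
  have hmul : ∀ j i, (k j).1 i * ((k j)⁻¹).1 i = 1 := fun j i => congrFun (k j).mul_inv i
  have hmul' : ∀ j i, ((k j)⁻¹).1 i * (k j).1 i = 1 := fun j i => congrFun (k j).inv_mul i
  have hA : ∀ i, Tendsto (fun j => (k j).1 i) atTop (𝓝 1) := by
    intro i
    have h1 := (h0.smul (hXi i)).add_const (1 : Matrix (Fin (N i)) (Fin (N i)) ℝ)
    rw [zero_smul, zero_add] at h1
    refine h1.congr fun j => ?_
    rw [smul_smul, mul_inv_cancel₀ (hr j).ne', one_smul, sub_add_cancel]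
  have hB : ∀ i, Tendsto (fun j => ((k j)⁻¹).1 i) atTop (𝓝 1) := fun i =>
    fix_inv_mat (fun j => hmul j i) (fun j => hmul' j i) (hA i)
  have hYi : ∀ i, Tendsto (fun j => (r j)⁻¹ • (((k j)⁻¹).1 i - 1)) atTop (𝓝 (-(X i))) := by
    intro i
    have h1 := ((hB i).mul (hXi i)).neg
    rw [one_mul] at h1
    refine h1.congr fun j => ?_
    rw [mul_smul_comm, mul_sub, hmul', mul_one, ← smul_neg, neg_sub]
  have hlim : Tendsto (fun j => (k j) ^ ⌊t / r j⌋₊) atTop (𝓝 (eu (t • X))) := by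
    refine fix_units_tendsto (fun i => ?_) fun i => ?_
    · have h1 := fix_pow_mat hr h0 hm (hXi i)
      refine h1.congr fun j => ?_
      rw [add_sub_cancel]
      rfl
    · have h1 := fix_pow_mat hr h0 hm (hYi i)
      rw [smul_neg] at h1
      show Tendsto (fun j => (((k j) ^ ⌊t / r j⌋₊)⁻¹).1 i) atTop (𝓝 (exp (-(t • X) i)))
      refine h1.congr fun j => ?_
      rw [add_sub_cancel, ← inv_pow]
      rfl
  exact hG.mem_of_tendsto hlim (Eventually.of_forall fun j => G.pow_mem (hk j) _)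

/-- tangent vectors of a closed group at the identity -/
theorem lie_of_tendsto (hG : IsClosed (G : Set (Alg N)ˣ)) {k : ℕ → (Alg N)ˣ}
    (hk : ∀ j, k j ∈ G) {r : ℕ → ℝ} (hr : ∀ j, 0 < r j)
    (h0 : Filter.Tendsto r Filter.atTop (nhds 0))
    {X : Alg N} (hX : Filter.Tendsto (fun j => (r j)⁻¹ • ((k j).1 - 1)) Filter.atTop (nhds X)) :
    X ∈ lie G := by
  have key : ∀ t : ℝ, 0 ≤ t → eu (t • X) ∈ G := fun t ht =>
    fix_lie_nonneg hG hk hr h0 hX ht
  intro t
  rcases le_or_gt 0 t with ht | ht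
  · exact key t ht
  · have h1 := G.inv_mem (key (-t) (by linarith))
    rwa [← eu_neg, ← neg_smul, neg_neg] at h1

private theorem fix_fr {d : ℕ} (A : Matrix (Fin d) (Fin d) ℝ) :
    fr A = ∑ j, ∑ k, A k j ^ 2 := by
  unfold fr
  rw [Matrix.trace]
  refine Finset.sum_congr rfl fun j _ => ?_
  rw [Matrix.diag_apply, Matrix.mul_apply]
  refine Finset.sum_congr rfl fun k _ => ?_
  rw [Matrix.transpose_apply]
  ring

private theorem fix_entry {d : ℕ} (A : Matrix (Fin d) (Fin d) ℝ) (j k : Fin d) :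
    A j k ^ 2 ≤ fr A := by
  rw [fix_fr]
  have h1 : A j k ^ 2 ≤ ∑ k', A k' k ^ 2 :=
    Finset.single_le_sum (f := fun k' => A k' k ^ 2) (fun _ _ => sq_nonneg _) (Finset.mem_univ j)
  exact h1.trans (Finset.single_le_sum (f := fun j' => ∑ k', A k' j' ^ 2)
    (fun _ _ => Finset.sum_nonneg fun _ _ => sq_nonneg _) (Finset.mem_univ k))

private theorem fix_fr_cont {d : ℕ} : Continuous (fr : Matrix (Fin d) (Fin d) ℝ → ℝ) := by
  have h : (fr : Matrix (Fin d) (Fin d) ℝ → ℝ) = fun A => ∑ j, ∑ k, A k j ^ 2 :=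
    funext fix_fr
  rw [h]
  fun_prop

private theorem fix_S (N : Fin n → ℕ) (R : ℝ) : IsCompact {a : Alg N | ∀ i, fr (a i) ≤ R} := by
  have hbox : ∀ i, IsCompact {A : Matrix (Fin (N i)) (Fin (N i)) ℝ |
      ∀ j k, A j k ∈ Set.Icc (-Real.sqrt R) (Real.sqrt R)} := by
    intro i
    have h1 : IsCompact (Set.pi Set.univ fun _ : Fin (N i) =>
        Set.pi Set.univ fun _ : Fin (N i) => Set.Icc (-Real.sqrt R) (Real.sqrt R)) :=
      isCompact_univ_pi fun _ => isCompact_univ_pi fun _ => isCompact_Icc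
    have h2 : {A : Matrix (Fin (N i)) (Fin (N i)) ℝ |
        ∀ j k, A j k ∈ Set.Icc (-Real.sqrt R) (Real.sqrt R)} =
        (Set.pi Set.univ fun _ : Fin (N i) =>
        Set.pi Set.univ fun _ : Fin (N i) => Set.Icc (-Real.sqrt R) (Real.sqrt R)) := by
      apply Set.ext
      intro A
      constructor
      · intro h j _ k _
        exact h j k
      · intro h j k
        exact h j (Set.mem_univ _) k (Set.mem_univ _)
    rw [h2]
    exact h1
  refine (isCompact_univ_pi hbox).of_isClosed_subset ?_ ?_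
  · have : {a : Alg N | ∀ i, fr (a i) ≤ R} = ⋂ i, {a : Alg N | fr (a i) ≤ R} := by
      ext a
      rw [Set.mem_iInter]
      rfl
    rw [this]
    exact isClosed_iInter fun i =>
      isClosed_le (fix_fr_cont.comp (continuous_apply i)) continuous_const
  · intro a ha i _ j k
    have h1 : a i j k ^ 2 ≤ R := (fix_entry (a i) j k).trans (ha i)
    have h2 := Real.abs_le_sqrt h1
    rw [abs_le] at h2
    exact h2

/-- the squared norm -/
private def fixF (X : Alg N) : ℝ := ∑ i, fr (X i)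

private theorem fixF_cont : Continuous (fixF : Alg N → ℝ) := by
  unfold fixF
  exact continuous_finsetSum _ fun i _ => fix_fr_cont.comp (continuous_apply i)

private theorem fixF_nonneg (X : Alg N) : 0 ≤ fixF X :=
  Finset.sum_nonneg fun _ _ => fr_nonneg _

private theorem fixF_le (X : Alg N) (i : Fin n) : fr (X i) ≤ fixF X :=
  Finset.single_le_sum (f := fun i => fr (X i)) (fun _ _ => fr_nonneg _) (Finset.mem_univ i)

private theorem fixF_zero : fixF (0 : Alg N) = 0 := by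
  unfold fixF fr
  simp

private theorem fixF_eq_zero {X : Alg N} (h : fixF X = 0) : X = 0 := by
  funext i
  exact fr_eq_zero (le_antisymm ((fixF_le X i).trans h.le) (fr_nonneg _))

private theorem fixF_smul (a : ℝ) (X : Alg N) : fixF (a • X) = a ^ 2 * fixF X := by
  unfold fixF
  rw [Finset.mul_sum]
  refine Finset.sum_congr rfl fun i _ => ?_
  show fr (a • X i) = _
  unfold fr
  rw [Matrix.transpose_smul, Matrix.smul_mul, Matrix.mul_smul, smul_smul, Matrix.trace_smul,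
    smul_eq_mul]
  ring

private theorem fixF_orth {a : (Alg N)ˣ} (ha : Orth a) :
    fixF (a.1 - 1) = ∑ i, (2 * (N i : ℝ) - 2 * (a.1 i).trace) := by
  unfold fixF
  refine Finset.sum_congr rfl fun i _ => ?_
  show fr (a.1 i - 1) = _
  unfold fr
  have h1 : (a.1 i - 1)ᵀ * (a.1 i - 1) = (1 + 1) - (a.1 i)ᵀ - a.1 i := by
    rw [Matrix.transpose_sub, Matrix.transpose_one, sub_mul, mul_sub, ha i]
    noncomm_ring
  rw [h1, Matrix.trace_sub, Matrix.trace_sub, Matrix.trace_add, Matrix.trace_one,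
    Matrix.trace_transpose, Fintype.card_fin]
  ring

private theorem fix_orth_eu {κ : Alg N} (hκ : ∀ i, (κ i)ᵀ = -κ i) (s : ℝ) :
    Orth (eu (s • κ)) := by
  intro i
  show (exp ((s • κ) i))ᵀ * exp ((s • κ) i) = 1
  rw [← Matrix.exp_transpose, Pi.smul_apply, Matrix.transpose_smul, hκ i, smul_neg,
    ← Matrix.exp_add_of_commute _ _ (Commute.refl (s • κ i)).neg_left, neg_add_cancel, exp_zero]

/-- the exponential of an element which commutes with `c` fixes `c` -/
private theorem fix_cA_eu {X c : Alg N} (h : X * c = c * X) (t : ℝ) :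
    cA (eu (t • X)) c = c := by
  have h1 : (eu (t • X)).1 * c = c * (eu (t • X)).1 := by
    funext i
    show exp ((t • X) i) * c i = c i * exp ((t • X) i)
    have h2 : Commute (t • X i) (c i) := by
      have h3 : X i * c i = c i * X i := congrFun h i
      exact Commute.smul_left h3 t
    exact (Commute.exp_left h2).eq
  unfold cA
  rw [h1, mul_assoc, Units.mul_inv, mul_one]

open Filter Topology in
/-- near the identity -/
private theorem fix_near (hG : SelfAdj G) {c : Alg N} (hc : c ∈ pp G)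
    (hcc : ∀ Y ∈ pp G, c * Y = Y * c) :
    ∃ ε : ℝ, 0 < ε ∧ ∀ k ∈ G, Orth k → fixF (k.1 - 1) < ε → cA k c = c := by
  by_contra hcon
  push Not at hcon
  obtain ⟨K', hK'⟩ : ∃ K' : Set (Alg N)ˣ, K' = {k | k ∈ G ∧ Orth k ∧ cA k c = c} := ⟨_, rfl⟩
  have hmem : ∀ k, k ∈ K' ↔ k ∈ G ∧ Orth k ∧ cA k c = c := fun k => by rw [hK']; rfl
  have hcA : Continuous fun k : (Alg N)ˣ => cA k c :=
    continuous_cA.comp (continuous_id.prodMk continuous_const)
  have hcpt : IsCompact K' := by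
    have h1 : IsCompact ((G : Set (Alg N)ˣ) ∩ {k : (Alg N)ˣ | Orth k}) :=
      isCompact_orth.inter_left hG.closed
    refine h1.of_isClosed_subset ?_ fun k hk => ?_
    · have h2 : K' = ((G : Set (Alg N)ˣ) ∩ {k : (Alg N)ˣ | Orth k}) ∩ {k | cA k c = c} := by
        ext k
        rw [hmem]
        exact and_assoc.symm
      rw [h2]
      exact h1.isClosed.inter (isClosed_eq hcA continuous_const)
    · exact ⟨((hmem k).1 hk).1, ((hmem k).1 hk).2.1⟩
  have hone : (1 : (Alg N)ˣ) ∈ K' := (hmem _).2 ⟨G.one_mem, orth_one, cA_one c⟩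
  have hmin : ∀ k : (Alg N)ˣ, ∃ k' ∈ K', ∀ k'' ∈ K',
      fixF ((k * k').1 - 1) ≤ fixF ((k * k'').1 - 1) := by
    intro k
    have h1 : Continuous fun k' : (Alg N)ˣ => fixF ((k * k').1 - 1) :=
      fixF_cont.comp ((Units.continuous_val.comp (continuous_const.mul continuous_id)).sub
        continuous_const)
    obtain ⟨k', hk', h2⟩ := hcpt.exists_isMinOn ⟨1, hone⟩ h1.continuousOn
    exact ⟨k', hk', fun k'' hk'' => h2 hk''⟩
  have hseq : ∀ j : ℕ, ∃ a : (Alg N)ˣ, a ∈ G ∧ Orth a ∧ cA a c ≠ c ∧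
      fixF (a.1 - 1) < 1 / ((j : ℝ) + 1) ∧
      ∀ k ∈ K', fixF (a.1 - 1) ≤ fixF ((a * k).1 - 1) := by
    intro j
    obtain ⟨k, hk, ho, h1, h2⟩ := hcon (1 / ((j : ℝ) + 1)) (by positivity)
    obtain ⟨k', hk', h3⟩ := hmin k
    obtain ⟨h4, h5, h6⟩ := (hmem k').1 hk'
    refine ⟨k * k', G.mul_mem hk h4, orth_mul ho h5, fun h => h2 ?_, ?_, fun k'' hk'' => ?_⟩
    · rwa [cA_mul, h6] at h
    · refine lt_of_le_of_lt ?_ h1
      have h7 := h3 1 hone
      rwa [mul_one] at h7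
    · obtain ⟨h7, h8, h9⟩ := (hmem k'').1 hk''
      rw [mul_assoc]
      refine h3 _ ((hmem _).2 ⟨G.mul_mem h4 h7, orth_mul h5 h8, ?_⟩)
      rw [cA_mul, h9, h6]
  choose a haG haO hac hlt hmn using hseq
  obtain ⟨r, hr⟩ : ∃ r : ℕ → ℝ, r = fun j => Real.sqrt (fixF ((a j).1 - 1)) := ⟨_, rfl⟩
  have hpos : ∀ j, 0 < fixF ((a j).1 - 1) := by
    intro j
    refine lt_of_le_of_ne (fixF_nonneg _) fun h => hac j ?_
    have h1 := fixF_eq_zero h.symm
    have h2 : a j = 1 := Units.ext (sub_eq_zero.1 h1)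
    rw [h2, cA_one]
  have hrp : ∀ j, 0 < r j := fun j => by
    rw [hr]
    exact Real.sqrt_pos.2 (hpos j)
  have hr2 : ∀ j, r j ^ 2 = fixF ((a j).1 - 1) := fun j => by
    rw [hr]
    exact Real.sq_sqrt (hpos j).le
  have hr0 : Tendsto r atTop (𝓝 0) := by
    have h1 : Tendsto (fun j : ℕ => Real.sqrt (1 / ((j : ℝ) + 1))) atTop (𝓝 0) := by
      have h2 := (Real.continuous_sqrt.tendsto 0).comp
        (tendsto_one_div_add_atTop_nhds_zero_nat (𝕜 := ℝ))
      rwa [Real.sqrt_zero] at h2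
    refine squeeze_zero (fun j => (hrp j).le) (fun j => ?_) h1
    rw [hr]
    exact Real.sqrt_le_sqrt (hlt j).le
  obtain ⟨x, hx⟩ : ∃ x : ℕ → Alg N, x = fun j => (r j)⁻¹ • ((a j).1 - 1) := ⟨_, rfl⟩
  have hx1 : ∀ j, fixF (x j) = 1 := fun j => by
    rw [hx]
    show fixF ((r j)⁻¹ • ((a j).1 - 1)) = 1
    rw [fixF_smul, ← hr2, ← mul_pow, inv_mul_cancel₀ (hrp j).ne', one_pow]
  have hfc : ∀ i, FirstCountableTopology (Matrix (Fin (N i)) (Fin (N i)) ℝ) := fun i =>
    inferInstanceAs (FirstCountableTopology (Fin (N i) → Fin (N i) → ℝ))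
  obtain ⟨X, -, φ, hφ, hlim⟩ := (fix_S N 1).tendsto_subseq (x := x)
    fun j i => (fixF_le _ i).trans (hx1 j).le
  have hxr : Tendsto (fun j => (r (φ j))⁻¹ • ((a (φ j)).1 - 1)) atTop (𝓝 X) := by
    refine hlim.congr fun j => ?_
    rw [Function.comp_apply, hx]
  have hr0' : Tendsto (fun j => r (φ j)) atTop (𝓝 0) := hr0.comp hφ.tendsto_atTop
  -- `X` has norm one
  have hX1 : fixF X = 1 := by
    have h1 := (fixF_cont.tendsto X).comp hlim
    refine tendsto_nhds_unique h1 ?_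
    refine tendsto_const_nhds.congr fun j => ?_
    exact (hx1 (φ j)).symm
  -- `X` is skew
  have hskew : ∀ i, (X i)ᵀ = -(X i) := by
    intro i
    have h1 : Tendsto (fun j => (r (φ j))⁻¹ • ((a (φ j)).1 i - 1)) atTop (𝓝 (X i)) :=
      tendsto_pi_nhds.1 hxr i
    have h2 : Tendsto (fun j => (a (φ j)).1 i - 1) atTop (𝓝 0) := by
      have h3 := hr0'.smul h1
      rw [zero_smul] at h3
      refine h3.congr fun j => ?_
      rw [smul_smul, mul_inv_cancel₀ (hrp _).ne', one_smul]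
    have h3 : Continuous (fun A : Matrix (Fin (N i)) (Fin (N i)) ℝ => Aᵀ) :=
      continuous_id.matrix_transpose
    have h4 := (h3.tendsto _).comp h1
    have h5 := (h4.add h1).add (h4.mul h2)
    rw [mul_zero, add_zero] at h5
    have h6 : (X i)ᵀ + X i = 0 := by
      refine tendsto_nhds_unique h5 ?_
      refine tendsto_const_nhds.congr fun j => ?_
      rw [Function.comp_apply, Matrix.transpose_smul, smul_mul_assoc, ← smul_add, ← smul_add]
      have h7 : ((a (φ j)).1 i - 1)ᵀ + ((a (φ j)).1 i - 1) +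
          ((a (φ j)).1 i - 1)ᵀ * ((a (φ j)).1 i - 1) = 0 := by
        rw [Matrix.transpose_sub, Matrix.transpose_one, sub_mul, mul_sub, haO (φ j) i]
        noncomm_ring
      rw [h7, smul_zero]
    exact eq_neg_of_add_eq_zero_left h6
  -- `X` lies in the Lie algebra
  have hXlie : X ∈ lie G :=
    lie_of_tendsto hG.closed (fun j => haG (φ j)) (fun j => hrp (φ j)) hr0' hxr
  -- `X` commutes with `c`
  have hXc : X * c = c * X := by
    have hW : X * c - c * X ∈ pp G := by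
      refine ⟨fun i => ?_, lie_br hG.closed hXlie hc.2⟩
      show (X i * c i - c i * X i)ᵀ = X i * c i - c i * X i
      rw [Matrix.transpose_sub, Matrix.transpose_mul, Matrix.transpose_mul, hskew i, hc.1 i]
      noncomm_ring
    obtain ⟨W, hWe⟩ : ∃ W, W = X * c - c * X := ⟨_, rfl⟩
    rw [← hWe] at hW
    have h1 : ip W W = 0 := by
      unfold ip
      refine Finset.sum_eq_zero fun i _ => ?_
      have h2 : c i * W i = W i * c i := congrFun (hcc W hW) i
      have h3 : W i = X i * c i - c i * X i := by rw [hWe]; rfl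
      calc (W i * W i).trace = ((X i * c i - c i * X i) * W i).trace := by rw [← h3]
        _ = (X i * (c i * W i)).trace - (c i * (X i * W i)).trace := by
            rw [sub_mul, Matrix.trace_sub, mul_assoc, mul_assoc]
        _ = 0 := by
            rw [h2, Matrix.trace_mul_comm (c i), ← mul_assoc, sub_self]
    have h2 := ip_self_zero hW.1 h1
    rw [hWe] at h2
    exact sub_eq_zero.1 h2
  -- first order condition
  have htr : ∀ j, ip ((a j).1) X = 0 := by
    intro j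
    have hd : HasDerivAt (fun s : ℝ => ∑ i, ((a j).1 i * exp (s • X i)).trace)
        (∑ i, ((a j).1 i * X i).trace) 0 :=
      HasDerivAt.fun_sum fun i _ => fix_deriv ((a j).1 i) (X i)
    have hmax : IsLocalMax (fun s : ℝ => ∑ i, ((a j).1 i * exp (s • X i)).trace) 0 := by
      refine Filter.Eventually.of_forall fun s => ?_
      have hO : Orth (eu (s • X)) := fix_orth_eu hskew s
      have h1 := hmn j (eu (s • X)) ((hmem _).2 ⟨hXlie s, hO, fix_cA_eu hXc s⟩)
      rw [fixF_orth (haO j), fixF_orth (orth_mul (haO j) hO)] at h1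
      simp only [Finset.sum_sub_distrib, ← Finset.mul_sum] at h1
      have h2 : ∑ i, ((a j * eu (s • X)).1 i).trace =
          ∑ i, ((a j).1 i * exp (s • X i)).trace := rfl
      have h3 : ∑ i, ((a j).1 i * exp ((0 : ℝ) • X i)).trace = ∑ i, ((a j).1 i).trace := by
        refine Finset.sum_congr rfl fun i _ => ?_
        rw [zero_smul, exp_zero, mul_one]
      show ∑ i, ((a j).1 i * exp (s • X i)).trace ≤
        ∑ i, ((a j).1 i * exp ((0 : ℝ) • X i)).trace
      rw [h3]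
      rw [h2] at h1
      linarith
    exact hmax.hasDerivAt_eq_zero hd
  have htr0 : ip (1 : Alg N) X = 0 := by
    unfold ip
    refine Finset.sum_eq_zero fun i _ => ?_
    show ((1 : Matrix (Fin (N i)) (Fin (N i)) ℝ) * X i).trace = 0
    rw [one_mul]
    have h1 := Matrix.trace_transpose (X i)
    rw [hskew i, Matrix.trace_neg] at h1
    linarith
  have hxX : ∀ j, ip (x j) X = 0 := by
    intro j
    rw [hx]
    show ip ((r j)⁻¹ • ((a j).1 - 1)) X = 0
    rw [ip_smul_left, ip_sub_left, htr, htr0, sub_zero, mul_zero]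
  have hXX : ip X X = 0 := by
    have h1 : Continuous fun Y : Alg N => ip Y X :=
      continuous_ip.comp (continuous_id.prodMk continuous_const)
    have h2 := (h1.tendsto X).comp hlim
    refine tendsto_nhds_unique h2 ?_
    exact tendsto_const_nhds.congr fun j => (hxX (φ j)).symm
  have h9 : fixF X = -ip X X := by
    unfold fixF ip
    rw [← Finset.sum_neg_distrib]
    refine Finset.sum_congr rfl fun i _ => ?_
    unfold fr
    rw [hskew i, neg_mul, Matrix.trace_neg]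
  rw [hX1, hXX] at h9
  norm_num at h9

theorem fix_centre (hG : SelfAdj G) (hK : Kconn G) {c : Alg N} (hc : c ∈ pp G)
    (hcc : ∀ Y ∈ pp G, c * Y = Y * c) {k : (Alg N)ˣ} (hk : k ∈ G) (ho : Orth k) :
    cA k c = c := by
  obtain ⟨ε, hε, hnear⟩ := fix_near hG hc hcc
  have hK1 : PreconnectedSpace {k : (Alg N)ˣ | k ∈ G ∧ Orth k} :=
    isPreconnected_iff_preconnectedSpace.1 hK
  have hcA : Continuous fun k : (Alg N)ˣ => cA k c :=
    continuous_cA.comp (continuous_id.prodMk continuous_const)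
  obtain ⟨S, hS⟩ : ∃ S : Set {k : (Alg N)ˣ | k ∈ G ∧ Orth k}, S = {x | cA x.1 c = c} :=
    ⟨_, rfl⟩
  have hmem : ∀ x, x ∈ S ↔ cA x.1 c = c := fun x => by rw [hS]; rfl
  have hclosed : IsClosed S := by
    rw [hS]
    exact isClosed_eq (hcA.comp continuous_subtype_val) continuous_const
  have hopen : IsOpen S := by
    rw [isOpen_iff_forall_mem_open]
    intro x hx
    have hcont : Continuous fun y : {k : (Alg N)ˣ | k ∈ G ∧ Orth k} =>
        fixF ((x.1⁻¹ * y.1).1 - 1) :=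
      fixF_cont.comp ((Units.continuous_val.comp
        (continuous_const.mul continuous_subtype_val)).sub continuous_const)
    refine ⟨{y | fixF ((x.1⁻¹ * y.1).1 - 1) < ε}, fun y hy => ?_,
      isOpen_lt hcont continuous_const, ?_⟩
    · have h1 := hnear (x.1⁻¹ * y.1) (G.mul_mem (G.inv_mem x.2.1) y.2.1)
        (orth_mul (orth_inv x.2.2) y.2.2) hy
      rw [hmem]
      have h2 : x.1 * (x.1⁻¹ * y.1) = y.1 := by group
      rw [← h2, cA_mul, h1]
      exact (hmem x).1 hx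
    · show fixF ((x.1⁻¹ * x.1).1 - 1) < ε
      rw [inv_mul_cancel, Units.val_one, sub_self, fixF_zero]
      exact hε
  have huniv := IsClopen.eq_univ ⟨hclosed, hopen⟩
    (⟨⟨1, G.one_mem, orth_one⟩, (hmem _).2 (cA_one c)⟩ : S.Nonempty)
  have h1 : (⟨k, hk, ho⟩ : {k : (Alg N)ˣ | k ∈ G ∧ Orth k}) ∈ S := by
    rw [huniv]
    exact Set.mem_univ _
  exact (hmem _).1 h1

end Pool.Agent.MP_417c68_gt
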