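import Pool.Agent.Lib.MP_417c68_gt_P.I.Alpha

/-!
# MP_417c68_gt, project P, module I/Gv: every Lie triple in `𝔭(G)` comes from a subgroup

PROOF (text, section 9).  `K_V = {k ∈ G : Orth k, cA k X ∈ V and cA k⁻¹ X ∈ V for all X ∈ V}`,
`A = {k * eu X : k ∈ K_V, X ∈ V}`.
* Products: `eu X * k = k * eu (cA k⁻¹ X)` (`eu_cA`), so it is enough to show `eu X * eu Y ∈ A` for
  `X, Y ∈ V`.  By `alpha` `eu Y * eu ((2 : ℝ) • X) * eu Y = eu Z`, `Z ∈ V`.  `k = eu X * eu Y * eu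
  (-(1/2) • Z)` is
  orthogonal (`kᵀ k = exp (-Z/2) exp Y exp (2 X) exp Y exp (-Z/2) = 1`), lies in `G`; `cA k` maps
  `gV V` to `gV V`
  (`cA_gV`) and preserves symmetry, so it preserves `V` (`gV_sym`); the same for `k⁻¹`.
* Inverses: `(k * eu X)⁻¹ = eu (-X) * k⁻¹ = k⁻¹ * eu (cA k (-X))`.
* Closed: `K_V` is compact, `V` is closed, `eu` is proper on symmetric elements (compare
  `MP_417c68_gt_D/PrjA.lean`, `selfAdj_prj`): if `k_j exp (X_j) → g` then `exp (2 X_j)` converges,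
  so `X_j` is
  bounded (`log_bound`); pass to a subsequence.
* `polar`: `(k * eu X)ᵀ (k * eu X) = exp (2 X)`, so one needs `(2 : ℝ) • X ∈ pp A`: `eu (t • X) ∈
  A`.
* `pp A = V`: if `X ∈ pp A` then `eu X = k * eu Y`, `k ∈ K_V`, `Y ∈ V`; `exp (2 X) = exp (2 Y)`, so
  `X = Y`
  (`exp_inj_symm`).
-/

noncomputable section

namespace Pool.Agent.MP_417c68_gt

open Matrix NormedSpace

variable {n : ℕ} {N : Fin n → ℕ} {V : Submodule ℝ (Alg N)} {G : Subgroup (Alg N)ˣ}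

private theorem gv_two {m : ℕ} (A : Matrix (Fin m) (Fin m) ℝ) :
    exp A * exp A = exp ((2 : ℝ) • A) := by
  rw [← Matrix.exp_add_of_commute A A (Commute.refl A), two_smul]

private theorem gv_tr {m : ℕ} {A : Matrix (Fin m) (Fin m) ℝ} (hA : Aᵀ = A) :
    (exp A)ᵀ = exp A := by
  rw [← Matrix.exp_transpose, hA]

private theorem gv_neg {m : ℕ} (A : Matrix (Fin m) (Fin m) ℝ) :
    exp (-A) * exp A = 1 := by
  rw [← Matrix.exp_add_of_commute _ _ (Commute.refl A).neg_left, neg_add_cancel, exp_zero]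

private theorem gv_neg' {m : ℕ} (A : Matrix (Fin m) (Fin m) ℝ) :
    exp A * exp (-A) = 1 := by
  rw [← Matrix.exp_add_of_commute _ _ (Commute.refl A).neg_right, add_neg_cancel, exp_zero]

private theorem gv_inv {k : (Alg N)ˣ} (ho : Orth k) (i : Fin n) : (k⁻¹).1 i = (k.1 i)ᵀ := by
  have h1 : k.1 i * (k⁻¹).1 i = 1 := congrFun k.mul_inv i
  calc (k⁻¹).1 i = ((k.1 i)ᵀ * k.1 i) * (k⁻¹).1 i := by rw [ho i, one_mul]
    _ = (k.1 i)ᵀ := by rw [mul_assoc, h1, mul_one]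

private theorem gv_sym {k : (Alg N)ˣ} (ho : Orth k) {X : Alg N} (hX : ∀ i, (X i)ᵀ = X i)
    (i : Fin n) : (cA k X i)ᵀ = cA k X i := by
  show (k.1 i * X i * (k⁻¹).1 i)ᵀ = k.1 i * X i * (k⁻¹).1 i
  rw [gv_inv ho, Matrix.transpose_mul, Matrix.transpose_mul, Matrix.transpose_transpose, hX,
    mul_assoc]

/-- the orthogonal elements of `G` which preserve `V` -/
private structure gvK (G : Subgroup (Alg N)ˣ) (V : Submodule ℝ (Alg N)) (k : (Alg N)ˣ) : Prop where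
  mem : k ∈ G
  orth : Orth k
  map : ∀ X ∈ V, cA k X ∈ V
  inv : ∀ X ∈ V, cA k⁻¹ X ∈ V

private theorem gvK_one : gvK G V 1 := by
  refine ⟨G.one_mem, orth_one, fun X hX => ?_, fun X hX => ?_⟩
  · rw [cA_one]
    exact hX
  · rw [inv_one, cA_one]
    exact hX

private theorem gvK_mul {k k' : (Alg N)ˣ} (h : gvK G V k) (h' : gvK G V k') :
    gvK G V (k * k') := by
  refine ⟨G.mul_mem h.mem h'.mem, orth_mul h.orth h'.orth, fun X hX => ?_, fun X hX => ?_⟩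
  · rw [cA_mul]
    exact h.map _ (h'.map _ hX)
  · rw [_root_.mul_inv_rev, cA_mul]
    exact h'.inv _ (h.inv _ hX)

private theorem gvK_inv {k : (Alg N)ˣ} (h : gvK G V k) : gvK G V k⁻¹ := by
  refine ⟨G.inv_mem h.mem, orth_inv h.orth, h.inv, fun X hX => ?_⟩
  rw [inv_inv]
  exact h.map _ hX

private theorem gv_comm (k : (Alg N)ˣ) (X : Alg N) : eu X * k = k * eu (cA k⁻¹ X) := by
  rw [eu_cA, inv_inv]
  group

private theorem gv_key (hG : SelfAdj G) (hVG : ∀ X ∈ V, X ∈ pp G) (hV : Trp V) {X Y : Alg N}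
    (hX : X ∈ V) (hY : Y ∈ V) : ∃ k, gvK G V k ∧ ∃ Z ∈ V, eu X * eu Y = k * eu Z := by
  obtain ⟨Z, hZ, hZe⟩ := alpha hG hVG hV hY (V.smul_mem (2 : ℝ) hX)
  have hW : (1 / 2 : ℝ) • Z ∈ V := V.smul_mem _ hZ
  obtain ⟨W, hWd⟩ : ∃ W, W = (1 / 2 : ℝ) • Z := ⟨_, rfl⟩
  rw [← hWd] at hW
  have hZW : ∀ i, exp (Z i) = exp (W i) * exp (W i) := by
    intro i
    rw [gv_two, hWd, Pi.smul_apply, smul_smul]
    norm_num
  have hk : Orth (eu X * eu Y * eu (-W)) := by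
    intro i
    have h1 : exp (Y i) * exp ((2 : ℝ) • X i) * exp (Y i) = exp (Z i) :=
      congrArg (fun u : (Alg N)ˣ => u.1 i) hZe
    show (exp (X i) * exp (Y i) * exp (-W i))ᵀ * (exp (X i) * exp (Y i) * exp (-W i)) = 1
    have hWs : (-W i)ᵀ = -W i := by rw [Matrix.transpose_neg, hV.sym W hW i]
    rw [Matrix.transpose_mul, Matrix.transpose_mul, gv_tr (hV.sym X hX i),
      gv_tr (hV.sym Y hY i), gv_tr hWs]
    calc exp (-W i) * (exp (Y i) * exp (X i)) * (exp (X i) * exp (Y i) * exp (-W i))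
        = exp (-W i) * (exp (Y i) * (exp (X i) * exp (X i)) * exp (Y i)) * exp (-W i) := by
          simp only [mul_assoc]
      _ = exp (-W i) * (exp (W i) * exp (W i)) * exp (-W i) := by rw [gv_two, h1, hZW]
      _ = (exp (-W i) * exp (W i)) * (exp (W i) * exp (-W i)) := by simp only [mul_assoc]
      _ = 1 := by rw [gv_neg, gv_neg', one_mul]
  have hXn : -X ∈ V := V.neg_mem hX
  have hYn : -Y ∈ V := V.neg_mem hY
  have hWn : -W ∈ V := V.neg_mem hW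
  refine ⟨eu X * eu Y * eu (-W), ⟨?_, hk, fun A hA => ?_, fun A hA => ?_⟩, W, hW, ?_⟩
  · exact G.mul_mem (G.mul_mem (eu_mem (hVG X hX)) (eu_mem (hVG Y hY))) (eu_mem (hVG _ hWn))
  · refine gV_sym hV ?_ (gv_sym hk (hV.sym A hA))
    rw [cA_mul, cA_mul]
    exact cA_gV hV hX (cA_gV hV hY (cA_gV hV hWn (Submodule.mem_sup_left hA)))
  · refine gV_sym hV ?_ (gv_sym (orth_inv hk) (hV.sym A hA))
    rw [_root_.mul_inv_rev, _root_.mul_inv_rev, ← eu_neg, ← eu_neg, ← eu_neg, cA_mul, cA_mul,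
      neg_neg]
    exact cA_gV hV hW (cA_gV hV hYn (cA_gV hV hXn (Submodule.mem_sup_left hA)))
  · rw [eu_neg, mul_assoc, inv_mul_cancel, mul_one]

/-- the group `K_V exp V` -/
private def gvA (hG : SelfAdj G) (hVG : ∀ X ∈ V, X ∈ pp G) (hV : Trp V) :
    Subgroup (Alg N)ˣ where
  carrier := {g | ∃ k, gvK G V k ∧ ∃ X ∈ V, g = k * eu X}
  one_mem' := ⟨1, gvK_one, 0, V.zero_mem, by rw [eu_zero, one_mul]⟩
  mul_mem' := by
    rintro a b ⟨k, hk, X, hX, rfl⟩ ⟨k', hk', X', hX', rfl⟩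
    obtain ⟨k'', hk'', Z, hZ, h⟩ := gv_key hG hVG hV (hk'.inv X hX) hX'
    refine ⟨k * k' * k'', gvK_mul (gvK_mul hk hk') hk'', Z, hZ, ?_⟩
    calc k * eu X * (k' * eu X') = k * (eu X * k') * eu X' := by simp only [mul_assoc]
      _ = k * k' * (eu (cA k'⁻¹ X) * eu X') := by rw [gv_comm]; simp only [mul_assoc]
      _ = k * k' * k'' * eu Z := by rw [h]; simp only [mul_assoc]
  inv_mem' := by
    rintro a ⟨k, hk, X, hX, rfl⟩
    refine ⟨k⁻¹, gvK_inv hk, cA k (-X), hk.map _ (V.neg_mem hX), ?_⟩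
    rw [_root_.mul_inv_rev, ← eu_neg, gv_comm, inv_inv]

private theorem gv_mem {hG : SelfAdj G} {hVG : ∀ X ∈ V, X ∈ pp G} {hV : Trp V} {g : (Alg N)ˣ} :
    g ∈ gvA hG hVG hV ↔ ∃ k, gvK G V k ∧ ∃ X ∈ V, g = k * eu X := Iff.rfl

/-- a set whose intersections with all `KR N R` are closed is closed -/
private theorem gv_closed {S : Set (Alg N)ˣ} (h : ∀ R : ℝ, IsClosed (S ∩ KR N R)) :
    IsClosed S := by
  have hfr : ∀ m : ℕ, Continuous (fr : Matrix (Fin m) (Fin m) ℝ → ℝ) := by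
    intro m
    have e : (fr : Matrix (Fin m) (Fin m) ℝ → ℝ) = fun A => (Aᵀ * A).trace := rfl
    rw [e]
    fun_prop
  have hc1 : ∀ i, Continuous fun g : (Alg N)ˣ => fr (g.1 i) := fun i =>
    (hfr _).comp ((continuous_apply i).comp Units.continuous_val)
  have hc2 : ∀ i, Continuous fun g : (Alg N)ˣ => fr ((g⁻¹).1 i) := fun i =>
    (hfr _).comp ((continuous_apply i).comp (Units.continuous_val.comp continuous_inv))
  rw [← closure_subset_iff_isClosed]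
  intro g hg
  obtain ⟨R, hR⟩ : ∃ R : ℝ, ∀ i, fr (g.1 i) < R ∧ fr ((g⁻¹).1 i) < R := by
    refine ⟨∑ i, (fr (g.1 i) + fr ((g⁻¹).1 i)) + 1, fun i => ?_⟩
    have h1 : fr (g.1 i) + fr ((g⁻¹).1 i) ≤ ∑ i, (fr (g.1 i) + fr ((g⁻¹).1 i)) :=
      Finset.single_le_sum (f := fun i => fr (g.1 i) + fr ((g⁻¹).1 i))
        (fun i _ => add_nonneg (fr_nonneg _) (fr_nonneg _)) (Finset.mem_univ i)
    have h2 := fr_nonneg (g.1 i)
    have h3 := fr_nonneg ((g⁻¹).1 i)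
    constructor <;> linarith
  have hU : IsOpen {u : (Alg N)ˣ | ∀ i, fr (u.1 i) < R ∧ fr ((u⁻¹).1 i) < R} := by
    have e : {u : (Alg N)ˣ | ∀ i, fr (u.1 i) < R ∧ fr ((u⁻¹).1 i) < R} =
        ⋂ i, ({u : (Alg N)ˣ | fr (u.1 i) < R} ∩ {u : (Alg N)ˣ | fr ((u⁻¹).1 i) < R}) := by
      ext u
      rw [Set.mem_iInter]
      rfl
    rw [e]
    exact isOpen_iInter_of_finite fun i =>
      (isOpen_lt (hc1 i) continuous_const).inter (isOpen_lt (hc2 i) continuous_const)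
  have h1 := hU.inter_closure ⟨hR, hg⟩
  have h2 : {u : (Alg N)ˣ | ∀ i, fr (u.1 i) < R ∧ fr ((u⁻¹).1 i) < R} ∩ S ⊆ S ∩ KR N R :=
    fun u hu => ⟨hu.2, fun i => ⟨(hu.1 i).1.le, (hu.1 i).2.le⟩⟩
  exact ((h R).closure_subset_iff.2 h2 h1).1

private theorem gv_isCompact (hG : SelfAdj G) : IsCompact {k : (Alg N)ˣ | gvK G V k} := by
  have hVc : IsClosed (V : Set (Alg N)) := Submodule.closed_of_finiteDimensional _
  have e : {k : (Alg N)ˣ | gvK G V k} = {k : (Alg N)ˣ | Orth k} ∩ ((G : Set (Alg N)ˣ) ∩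
      ((⋂ X : V, (fun k : (Alg N)ˣ => cA k X.1) ⁻¹' (V : Set (Alg N))) ∩
        ⋂ X : V, (fun k : (Alg N)ˣ => cA k⁻¹ X.1) ⁻¹' (V : Set (Alg N)))) := by
    ext k
    constructor
    · intro h
      exact ⟨h.orth, h.mem, Set.mem_iInter.2 fun X => h.map X.1 X.2,
        Set.mem_iInter.2 fun X => h.inv X.1 X.2⟩
    · rintro ⟨h1, h2, h3, h4⟩
      exact ⟨h2, h1, fun X hX => Set.mem_iInter.1 h3 ⟨X, hX⟩,
        fun X hX => Set.mem_iInter.1 h4 ⟨X, hX⟩⟩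
  rw [e]
  refine isCompact_orth.inter_right (hG.closed.inter (IsClosed.inter ?_ ?_))
  · refine isClosed_iInter fun X => hVc.preimage ?_
    exact continuous_cA.comp (continuous_id.prodMk continuous_const)
  · refine isClosed_iInter fun X => hVc.preimage ?_
    exact continuous_cA.comp (continuous_inv.prodMk continuous_const)

private theorem gv_sq {g k : (Alg N)ˣ} {X : Alg N} (ho : Orth k) (hX : ∀ i, (X i)ᵀ = X i)
    (hg : g = k * eu X) (i : Fin n) : (g.1 i)ᵀ * g.1 i = exp ((2 : ℝ) • X i) := by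
  rw [hg]
  show (k.1 i * exp (X i))ᵀ * (k.1 i * exp (X i)) = exp ((2 : ℝ) • X i)
  rw [Matrix.transpose_mul, Matrix.mul_assoc, ← Matrix.mul_assoc (k.1 i)ᵀ, ho i,
    Matrix.one_mul, gv_tr (hX i), gv_two]

private theorem gv_fr {m : ℕ} {A : Matrix (Fin m) (Fin m) ℝ} (hA : Aᵀ = A) :
    fr (exp A) = (exp ((2 : ℝ) • A)).trace := by
  unfold fr
  rw [gv_tr hA, gv_two]

private theorem gv_bound {k : (Alg N)ˣ} {X : Alg N} (ho : Orth k) (hX : ∀ i, (X i)ᵀ = X i)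
    {R : ℝ} (h : k * eu X ∈ KR N R) : ip X X ≤ (n : ℝ) * (R / 2) := by
  have key : ∀ i, (X i * X i).trace ≤ R / 2 := by
    intro i
    obtain ⟨h1, h2⟩ := h i
    have h3 : fr ((k * eu X).1 i) = (exp ((2 : ℝ) • X i)).trace := by
      show fr (k.1 i * exp (X i)) = _
      rw [fr_orth_left (ho i), gv_fr (hX i)]
    have h4 : fr (((k * eu X)⁻¹).1 i) = (exp (-((2 : ℝ) • X i))).trace := by
      rw [_root_.mul_inv_rev, ← eu_neg]
      show fr (exp ((-X) i) * (k⁻¹).1 i) = _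
      rw [fr_orth_right (orth_right (orth_inv ho) i), Pi.neg_apply,
        gv_fr (by rw [Matrix.transpose_neg, hX i]), smul_neg]
    rw [h3] at h1
    rw [h4] at h2
    have h5 : ((2 : ℝ) • X i)ᵀ = (2 : ℝ) • X i := by
      rw [Matrix.transpose_smul, hX i]
    have h6 := sq_le_exp h5
    have h7 : (((2 : ℝ) • X i) * ((2 : ℝ) • X i)).trace = 4 * (X i * X i).trace := by
      rw [Matrix.smul_mul, Matrix.mul_smul, smul_smul, Matrix.trace_smul, smul_eq_mul]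
      norm_num
    rw [h7] at h6
    linarith
  unfold ip
  refine (Finset.sum_le_sum fun i _ => key i).trans ?_
  rw [Finset.sum_const, Finset.card_univ, Fintype.card_fin, nsmul_eq_mul]

private theorem gv_selfAdj (hG : SelfAdj G) (hVG : ∀ X ∈ V, X ∈ pp G) (hV : Trp V) :
    SelfAdj (gvA hG hVG hV) := by
  have hcont : Continuous (fun p : (Alg N)ˣ × Alg N => p.1 * eu p.2) :=
    continuous_fst.mul (continuous_eu.comp continuous_snd)
  have hVc : IsClosed (V : Set (Alg N)) := Submodule.closed_of_finiteDimensional _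
  constructor
  · refine gv_closed fun R => ?_
    have hE := (isCompact_symm_ball N ((n : ℝ) * (R / 2))).inter_left hVc
    have hM := ((gv_isCompact (V := V) hG).prod hE).image hcont
    have hKR : IsClosed (KR N R) := (isCompact_KR N R).isClosed
    have heq : (gvA hG hVG hV : Set (Alg N)ˣ) ∩ KR N R =
        ((fun p : (Alg N)ˣ × Alg N => p.1 * eu p.2) '' ({k : (Alg N)ˣ | gvK G V k} ×ˢ
          ((V : Set (Alg N)) ∩
            {X : Alg N | (∀ i, (X i)ᵀ = X i) ∧ ip X X ≤ (n : ℝ) * (R / 2)}))) ∩ KR N R := by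
      ext g
      constructor
      · rintro ⟨⟨k, hk, X, hX, rfl⟩, hg⟩
        exact ⟨⟨(k, X), ⟨hk, hX, hV.sym X hX, gv_bound hk.orth (hV.sym X hX) hg⟩, rfl⟩, hg⟩
      · rintro ⟨⟨p, ⟨hk, hX, -⟩, rfl⟩, hg⟩
        exact ⟨⟨p.1, hk, p.2, hX, rfl⟩, hg⟩
    rw [heq]
    exact hM.isClosed.inter hKR
  · rintro g ⟨k, hk, X, hX, hg⟩
    refine ⟨(2 : ℝ) • X, ⟨hV.sym _ (V.smul_mem _ hX), fun t => ?_⟩, fun i => ?_⟩
    · exact ⟨1, gvK_one, t • (2 : ℝ) • X, V.smul_mem _ (V.smul_mem _ hX), by rw [one_mul]⟩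
    · exact gv_sq hk.orth (hV.sym X hX) hg i

theorem gv (hG : SelfAdj G) (hVG : ∀ X ∈ V, X ∈ pp G) (hV : Trp V) :
    ∃ A : Subgroup (Alg N)ˣ, A ≤ G ∧ SelfAdj A ∧ ∀ X, X ∈ pp A ↔ X ∈ V := by
  refine ⟨gvA hG hVG hV, ?_, gv_selfAdj hG hVG hV, fun X => ⟨?_, fun hX => ?_⟩⟩
  · rintro g ⟨k, hk, X, hX, rfl⟩
    exact G.mul_mem hk.mem (eu_mem (hVG X hX))
  · intro hX
    obtain ⟨k, hk, Y, hY, h⟩ := eu_mem hX
    have h1 : ∀ i, (2 : ℝ) • X i = (2 : ℝ) • Y i := by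
      intro i
      have h2 := gv_sq hk.orth (hV.sym Y hY) h i
      have h3 := gv_sq (g := eu X) (k := 1) orth_one hX.1 (by rw [one_mul]) i
      rw [h3] at h2
      exact exp_inj_symm (by rw [Matrix.transpose_smul, hX.1 i])
        (by rw [Matrix.transpose_smul, hV.sym Y hY i]) h2
    have h2 : X = Y := by
      funext i
      have h3 := congrArg (fun M => (1 / 2 : ℝ) • M) (h1 i)
      simp only [smul_smul] at h3
      norm_num at h3
      exact h3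
    rw [h2]
    exact hY
  · exact ⟨hV.sym X hX, fun t => ⟨1, gvK_one, t • X, V.smul_mem _ hX, by rw [one_mul]⟩⟩

/-- the same group, with more information: it is `N_K(V) exp V` -/
theorem gv' (hG : SelfAdj G) (hVG : ∀ X ∈ V, X ∈ pp G) (hV : Trp V) :
    ∃ A : Subgroup (Alg N)ˣ, A ≤ G ∧ SelfAdj A ∧ (∀ X, X ∈ pp A ↔ X ∈ V) ∧
      (∀ k ∈ G, Orth k → (∀ X ∈ V, cA k X ∈ V) → (∀ X ∈ V, cA k⁻¹ X ∈ V) → k ∈ A) ∧
      ∀ g ∈ A, ∃ k ∈ G, Orth k ∧ (∀ X ∈ V, cA k X ∈ V) ∧ (∀ X ∈ V, cA k⁻¹ X ∈ V) ∧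
        ∃ X ∈ V, g = k * eu X := by
  refine ⟨gvA hG hVG hV, ?_, gv_selfAdj hG hVG hV, fun X => ⟨?_, fun hX => ?_⟩, ?_, ?_⟩
  · rintro g ⟨k, hk, X, hX, rfl⟩
    exact G.mul_mem hk.mem (eu_mem (hVG X hX))
  · intro hX
    obtain ⟨k, hk, Y, hY, h⟩ := eu_mem hX
    have h1 : ∀ i, (2 : ℝ) • X i = (2 : ℝ) • Y i := by
      intro i
      have h2 := gv_sq hk.orth (hV.sym Y hY) h i
      have h3 := gv_sq (g := eu X) (k := 1) orth_one hX.1 (by rw [one_mul]) i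
      rw [h3] at h2
      exact exp_inj_symm (by rw [Matrix.transpose_smul, hX.1 i])
        (by rw [Matrix.transpose_smul, hV.sym Y hY i]) h2
    have h2 : X = Y := by
      funext i
      have h3 := congrArg (fun M => (1 / 2 : ℝ) • M) (h1 i)
      simp only [smul_smul] at h3
      norm_num at h3
      exact h3
    rw [h2]
    exact hY
  · exact ⟨hV.sym X hX, fun t => ⟨1, gvK_one, t • X, V.smul_mem _ hX, by rw [one_mul]⟩⟩
  · intro k hk ho h1 h2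
    exact ⟨k, ⟨hk, ho, h1, h2⟩, 0, V.zero_mem, by rw [eu_zero, mul_one]⟩
  · rintro g ⟨k, hk, X, hX, rfl⟩
    exact ⟨k, hk.mem, hk.orth, hk.map, hk.inv, X, hX, rfl⟩

end Pool.Agent.MP_417c68_gt
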